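import Pool.Agent.Lib.MP_fc2a59_co.ALM.T.Stm

set_option autoImplicit false

namespace Pool.Agent.ALM

open Finset
open scoped Classical

namespace DECX

section

variable {Z : Type} {P Q : Z → Prop} (ρ1 : {z // P z} → {z // P z}) (ρ2 : {z // Q z} → {z // Q z})

/-- the pairing of a bijection of the free points -/
noncomputable def mk (hQ : ∀ z, ¬ P z → Q z) (e : Fx ρ1 ≃ Fx ρ2) (z : Z) : Z :=
  if h : P z then
    (if h1 : ρ1 ⟨z, h⟩ = ⟨z, h⟩ then (e ⟨⟨z, h⟩, h1⟩).1.1 else (ρ1 ⟨z, h⟩).1)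
  else
    (if h1 : ρ2 ⟨z, hQ z h⟩ = ⟨z, hQ z h⟩ then (e.symm ⟨⟨z, hQ z h⟩, h1⟩).1.1
      else (ρ2 ⟨z, hQ z h⟩).1)

variable {ρ1 ρ2} (hQ : ∀ z, ¬ P z → Q z) (hP : ∀ z, Q z → ¬ P z) (e : Fx ρ1 ≃ Fx ρ2)

theorem mk_P {z : Z} {h : P z} (h1 : ρ1 ⟨z, h⟩ = ⟨z, h⟩) :
    mk ρ1 ρ2 hQ e z = (e ⟨⟨z, h⟩, h1⟩).1.1 := by
  rw [mk, dif_pos h, dif_pos h1]

theorem mk_P' {z : Z} {h : P z} (h1 : ρ1 ⟨z, h⟩ ≠ ⟨z, h⟩) :
    mk ρ1 ρ2 hQ e z = (ρ1 ⟨z, h⟩).1 := by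
  rw [mk, dif_pos h, dif_neg h1]

include hP in
theorem mk_Q {z : Z} {h : Q z} (h1 : ρ2 ⟨z, h⟩ = ⟨z, h⟩) :
    mk ρ1 ρ2 hQ e z = (e.symm ⟨⟨z, h⟩, h1⟩).1.1 := by
  rw [mk, dif_neg (hP z h), dif_pos h1]

include hP in
theorem mk_Q' {z : Z} {h : Q z} (h1 : ρ2 ⟨z, h⟩ ≠ ⟨z, h⟩) :
    mk ρ1 ρ2 hQ e z = (ρ2 ⟨z, h⟩).1 := by
  rw [mk, dif_neg (hP z h), dif_neg h1]

include hP in
theorem mk_pr (i1 : Inv ρ1) (i2 : Inv ρ2) : IsPr (mk ρ1 ρ2 hQ e) := by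
  intro z
  by_cases h : P z
  · by_cases h1 : ρ1 ⟨z, h⟩ = ⟨z, h⟩
    · rw [mk_P hQ e h1]
      have h2 : mk ρ1 ρ2 hQ e (e ⟨⟨z, h⟩, h1⟩).1.1 = (e.symm (e ⟨⟨z, h⟩, h1⟩)).1.1 :=
        mk_Q hQ hP e (h := (e ⟨⟨z, h⟩, h1⟩).1.2) (e ⟨⟨z, h⟩, h1⟩).2
      rw [h2, Equiv.symm_apply_apply]
      refine ⟨rfl, fun h3 => ?_⟩
      exact hP _ (e ⟨⟨z, h⟩, h1⟩).1.2 (h3.symm ▸ h)
    · rw [mk_P' hQ e h1]
      have h2 : ρ1 (ρ1 ⟨z, h⟩) ≠ ρ1 ⟨z, h⟩ := by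
        rw [i1]
        exact fun h3 => h1 h3.symm
      have h3 : mk ρ1 ρ2 hQ e (ρ1 ⟨z, h⟩).1 = (ρ1 (ρ1 ⟨z, h⟩)).1 :=
        mk_P' hQ e (h := (ρ1 ⟨z, h⟩).2) h2
      rw [h3, i1]
      exact ⟨rfl, fun h4 => h1 (Subtype.ext h4)⟩
  · by_cases h1 : ρ2 ⟨z, hQ z h⟩ = ⟨z, hQ z h⟩
    · rw [mk_Q hQ hP e h1]
      have h2 : mk ρ1 ρ2 hQ e (e.symm ⟨⟨z, hQ z h⟩, h1⟩).1.1 =
          (e (e.symm ⟨⟨z, hQ z h⟩, h1⟩)).1.1 :=
        mk_P hQ e (h := (e.symm ⟨⟨z, hQ z h⟩, h1⟩).1.2) (e.symm ⟨⟨z, hQ z h⟩, h1⟩).2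
      rw [h2, Equiv.apply_symm_apply]
      refine ⟨rfl, fun h3 => ?_⟩
      exact h (h3 ▸ (e.symm ⟨⟨z, hQ z h⟩, h1⟩).1.2)
    · rw [mk_Q' hQ hP e h1]
      have h2 : ρ2 (ρ2 ⟨z, hQ z h⟩) ≠ ρ2 ⟨z, hQ z h⟩ := by
        rw [i2]
        exact fun h3 => h1 h3.symm
      have h3 : mk ρ1 ρ2 hQ e (ρ2 ⟨z, hQ z h⟩).1 = (ρ2 (ρ2 ⟨z, hQ z h⟩)).1 :=
        mk_Q' hQ hP e (h := (ρ2 ⟨z, hQ z h⟩).2) h2
      rw [h3, i2]
      exact ⟨rfl, fun h4 => h1 (Subtype.ext h4)⟩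

include hP in
theorem rs_mk1 : rs P (mk ρ1 ρ2 hQ e) = ρ1 := by
  funext z
  by_cases h1 : ρ1 z = z
  · have h2 : mk ρ1 ρ2 hQ e z.1 = (e ⟨z, h1⟩).1.1 := mk_P hQ e (h := z.2) h1
    have h3 : ¬ P (mk ρ1 ρ2 hQ e z.1) := by
      rw [h2]
      exact hP _ (e ⟨z, h1⟩).1.2
    rw [rs, dif_neg h3, h1]
  · have h2 : mk ρ1 ρ2 hQ e z.1 = (ρ1 z).1 := mk_P' hQ e (h := z.2) h1
    have h3 : P (mk ρ1 ρ2 hQ e z.1) := by
      rw [h2]
      exact (ρ1 z).2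
    rw [rs, dif_pos h3]
    exact Subtype.ext h2

include hP in
theorem rs_mk2 : rs Q (mk ρ1 ρ2 hQ e) = ρ2 := by
  funext z
  by_cases h1 : ρ2 z = z
  · have h2 : mk ρ1 ρ2 hQ e z.1 = (e.symm ⟨z, h1⟩).1.1 := mk_Q hQ hP e (h := z.2) h1
    have h3 : ¬ Q (mk ρ1 ρ2 hQ e z.1) := by
      rw [h2]
      exact fun h4 => hP _ h4 (e.symm ⟨z, h1⟩).1.2
    rw [rs, dif_neg h3, h1]
  · have h2 : mk ρ1 ρ2 hQ e z.1 = (ρ2 z).1 := mk_Q' hQ hP e (h := z.2) h1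
    have h3 : Q (mk ρ1 ρ2 hQ e z.1) := by
      rw [h2]
      exact (ρ2 z).2
    rw [rs, dif_pos h3]
    exact Subtype.ext h2

end

section

variable {Z : Type} {P Q : Z → Prop} {σ : Z → Z}

/-- the partner of a free point lies on the other side -/
theorem part (hσ : IsPr σ) (z : {z // P z}) (h : rs P σ z = z) : ¬ P (σ z.1) := by
  intro h1
  rw [rs, dif_pos h1] at h
  exact (hσ z.1).2 (congrArg Subtype.val h)

theorem free (hσ : IsPr σ) (hP : ∀ z, Q z → ¬ P z) (z : Z) (hz : Q z) (hw : P (σ z)) :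
    rs P σ ⟨σ z, hw⟩ = ⟨σ z, hw⟩ := by
  rw [rs, dif_neg]
  rw [(hσ z).1]
  exact hP z hz

theorem inv_rs (hσ : IsPr σ) : Inv (rs P σ) := by
  intro z
  by_cases h : P (σ z.1)
  · have h1 : rs P σ z = ⟨σ z.1, h⟩ := by rw [rs, dif_pos h]
    have h2 : P (σ (σ z.1)) := by
      rw [(hσ z.1).1]
      exact z.2
    rw [h1, rs, dif_pos h2]
    exact Subtype.ext (hσ z.1).1
  · have h1 : rs P σ z = z := by rw [rs, dif_neg h]
    rw [h1, h1]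

/-- the bijection of the free points -/
noncomputable def eq (hσ : IsPr σ) (hQ : ∀ z, ¬ P z → Q z) (hP : ∀ z, Q z → ¬ P z) :
    Fx (rs P σ) ≃ Fx (rs Q σ) where
  toFun z := ⟨⟨σ z.1.1, hQ _ (part hσ z.1 z.2)⟩,
    free hσ (fun z h h' => hP z h' h) z.1.1 z.1.2 _⟩
  invFun z := ⟨⟨σ z.1.1, by
      by_contra h
      exact part hσ z.1 z.2 (hQ _ h)⟩,
    free hσ hP z.1.1 z.1.2 _⟩
  left_inv z := Subtype.ext (Subtype.ext (hσ z.1.1).1)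
  right_inv z := Subtype.ext (Subtype.ext (hσ z.1.1).1)

theorem eq_val (hσ : IsPr σ) (hQ : ∀ z, ¬ P z → Q z) (hP : ∀ z, Q z → ¬ P z)
    (z : Fx (rs P σ)) : (eq hσ hQ hP z).1.1 = σ z.1.1 := rfl

theorem eq_symm_val (hσ : IsPr σ) (hQ : ∀ z, ¬ P z → Q z) (hP : ∀ z, Q z → ¬ P z)
    (z : Fx (rs Q σ)) : ((eq hσ hQ hP).symm z).1.1 = σ z.1.1 := rfl

theorem mk_eq (hσ : IsPr σ) (hQ : ∀ z, ¬ P z → Q z) (hP : ∀ z, Q z → ¬ P z) :
    mk (rs P σ) (rs Q σ) hQ (eq hσ hQ hP) = σ := by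
  funext z
  by_cases h : P z
  · by_cases h1 : rs P σ ⟨z, h⟩ = ⟨z, h⟩
    · rw [mk_P hQ _ h1, eq_val]
    · rw [mk_P' hQ _ h1]
      have h2 : P (σ z) := by
        by_contra h3
        apply h1
        rw [rs, dif_neg h3]
      rw [rs, dif_pos h2]
  · have h' := hQ z h
    by_cases h1 : rs Q σ ⟨z, h'⟩ = ⟨z, h'⟩
    · rw [mk_Q hQ hP _ h1, eq_symm_val]
    · rw [mk_Q' hQ hP _ h1]
      have h2 : Q (σ z) := by
        by_contra h3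
        apply h1
        rw [rs, dif_neg h3]
      rw [rs, dif_pos h2]

end

/-- the pairings with given parts -/
noncomputable def eqv {Z : Type} {P Q : Z → Prop} (hQ : ∀ z, ¬ P z → Q z)
    (hP : ∀ z, Q z → ¬ P z) (ρ1 : {z // P z} → {z // P z}) (ρ2 : {z // Q z} → {z // Q z})
    (i1 : Inv ρ1) (i2 : Inv ρ2) :
    {σ : Z → Z // IsPr σ ∧ rs P σ = ρ1 ∧ rs Q σ = ρ2} ≃ (Fx ρ1 ≃ Fx ρ2) :=
  Equiv.ofBijective (fun σ => (Equiv.subtypeEquivRight fun z => by rw [σ.2.2.1]).trans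
      ((eq σ.2.1 hQ hP).trans (Equiv.subtypeEquivRight fun z => by rw [σ.2.2.2]))) (by
    constructor
    · rintro ⟨σ, h1, rfl, h3⟩ ⟨σ', h1', h2', h3'⟩ h
      apply Subtype.ext
      subst h3
      change σ = σ'
      have key : ∀ z : Fx (rs P σ), σ z.1.1 = σ' z.1.1 := by
        intro z
        have h4 := congrArg (fun w : Fx (rs Q σ) => w.1.1) (Equiv.congr_fun h z)
        exact h4
      have keyP : ∀ z, P z → σ z = σ' z := by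
        intro z hz
        by_cases h5 : rs P σ ⟨z, hz⟩ = ⟨z, hz⟩
        · exact key ⟨⟨z, hz⟩, h5⟩
        · have h6 : rs P σ' ⟨z, hz⟩ ≠ ⟨z, hz⟩ := by rwa [h2']
          have h7 : P (σ z) := by
            by_contra h8
            apply h5
            rw [rs, dif_neg h8]
          have h8 : P (σ' z) := by
            by_contra h9
            apply h6
            rw [rs, dif_neg h9]
          have h9 := congrFun h2' ⟨z, hz⟩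
          rw [rs, rs, dif_pos h7, dif_pos h8] at h9
          exact (congrArg Subtype.val h9).symm
      funext z
      by_cases hz : P z
      · exact keyP z hz
      · have hz' := hQ z hz
        by_cases h5 : rs Q σ ⟨z, hz'⟩ = ⟨z, hz'⟩
        · have h6 : P (σ z) := by
            by_contra h7
            exact part h1 ⟨z, hz'⟩ h5 (hQ _ h7)
          have h7 := keyP _ h6
          rw [(h1 z).1] at h7
          rw [← (h1' (σ z)).1, ← h7]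
        · have h6 : rs Q σ' ⟨z, hz'⟩ ≠ ⟨z, hz'⟩ := by rwa [h3']
          have h7 : Q (σ z) := by
            by_contra h8
            apply h5
            rw [rs, dif_neg h8]
          have h8 : Q (σ' z) := by
            by_contra h9
            apply h6
            rw [rs, dif_neg h9]
          have h9 := congrFun h3' ⟨z, hz'⟩
          rw [rs, rs, dif_pos h7, dif_pos h8] at h9
          exact (congrArg Subtype.val h9).symm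
    · intro e
      refine ⟨⟨mk ρ1 ρ2 hQ e, mk_pr hQ hP e i1 i2, rs_mk1 hQ hP e, rs_mk2 hQ hP e⟩, ?_⟩
      apply Equiv.ext
      intro z
      apply Subtype.ext
      apply Subtype.ext
      change mk ρ1 ρ2 hQ e z.1.1 = (e z).1.1
      exact mk_P hQ e (h := z.1.2) z.2)

theorem card_eqv {Z : Type} [Fintype Z] {P Q : Z → Prop} (hQ : ∀ z, ¬ P z → Q z)
    (hP : ∀ z, Q z → ¬ P z) (ρ1 : {z // P z} → {z // P z}) (ρ2 : {z // Q z} → {z // Q z})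
    (i1 : Inv ρ1) (i2 : Inv ρ2) :
    ((prs Z).filter fun σ => rs P σ = ρ1 ∧ rs Q σ = ρ2).card =
      if Fintype.card (Fx ρ1) = Fintype.card (Fx ρ2) then (Fintype.card (Fx ρ1)).factorial
      else 0 := by
  have h1 : ((prs Z).filter fun σ => rs P σ = ρ1 ∧ rs Q σ = ρ2).card =
      Fintype.card (Fx ρ1 ≃ Fx ρ2) := by
    rw [← Fintype.card_congr (eqv hQ hP ρ1 ρ2 i1 i2), Fintype.card_subtype, prs,
      Finset.filter_filter]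
  rw [h1]
  by_cases h : Fintype.card (Fx ρ1) = Fintype.card (Fx ρ2)
  · rw [if_pos h]
    exact Fintype.card_equiv (Fintype.equivOfCardEq h)
  · rw [if_neg h, Fintype.card_eq_zero_iff]
    exact ⟨fun e => h (Fintype.card_congr e)⟩

end DECX

theorem p_DEC : S_DEC := by
  intro Z _ P Q hPQ Q1 Q2
  have hQ : ∀ z, ¬ P z → Q z := fun z h => (hPQ z).2 h
  have hP : ∀ z, Q z → ¬ P z := fun z h => (hPQ z).1 h
  have h1 : (((prs Z).filter fun σ => Q1 (rs P σ) ∧ Q2 (rs Q σ)).card) =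
      ∑ p ∈ (univ.filter (fun ρ : {z // P z} → {z // P z} => Inv ρ ∧ Q1 ρ)) ×ˢ
        (univ.filter (fun ρ : {z // Q z} → {z // Q z} => Inv ρ ∧ Q2 ρ)),
        (((prs Z).filter fun σ => Q1 (rs P σ) ∧ Q2 (rs Q σ)).filter
          fun σ => (rs P σ, rs Q σ) = p).card := by
    refine card_eq_sum_card_fiberwise ?_
    intro σ hσ
    rw [Finset.mem_coe, mem_filter, prs, mem_filter] at hσ
    obtain ⟨⟨-, h1⟩, h2, h3⟩ := hσ
    rw [Finset.mem_coe, mem_product, mem_filter, mem_filter]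
    exact ⟨⟨mem_univ _, DECX.inv_rs h1, h2⟩, mem_univ _, DECX.inv_rs h1, h3⟩
  rw [h1, Finset.sum_product]
  refine Finset.sum_congr rfl fun ρ1 hρ1 => Finset.sum_congr rfl fun ρ2 hρ2 => ?_
  rw [mem_filter] at hρ1 hρ2
  rw [← DECX.card_eqv hQ hP ρ1 ρ2 hρ1.2.1 hρ2.2.1]
  congr 1
  ext σ
  rw [mem_filter, mem_filter, mem_filter, Prod.mk.injEq]
  constructor
  · rintro ⟨⟨h2, -⟩, h3⟩
    exact ⟨h2, h3⟩
  · rintro ⟨h2, h3, h4⟩
    exact ⟨⟨h2, by rw [h3]; exact hρ1.2.2, by rw [h4]; exact hρ2.2.2⟩, h3, h4⟩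

end Pool.Agent.ALM
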