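import Pool.Agent.Lib.MP_fc2a59_co.ALM.T.Stm

set_option autoImplicit false

/-!
# Project ALM, section T: two stages of contraction (piece p_2ST)
-/

namespace Pool.Agent.ALM

open Finset
open scoped Classical

namespace TwoSTX

variable {X W : Type} (b : X → W) (ρ0 ρ : X → X)

/-- fixed points of the sub-involution are mapped to fixed points of the sub-involution -/
theorem fx_fx {X : Type} {ρ0 ρ : X → X} (h0 : Inv ρ0) (h : Inv ρ) (hs : Sub ρ0 ρ) (z : X)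
    (hz : ρ0 z = z) : ρ0 (ρ z) = ρ z := by
  by_contra hne
  have h1 : ρ (ρ z) = ρ0 (ρ z) := hs _ hne
  rw [h z] at h1
  have h2 : ρ0 z = ρ z := by
    calc ρ0 z = ρ0 (ρ0 (ρ z)) := by rw [← h1]
      _ = ρ z := h0 _
  have h3 : ρ z = z := by rw [← h2, hz]
  apply hne
  rw [h3, hz]

/-- value of the second stage -/
theorem rt_val {X : Type} {ρ0 ρ : X → X} (h0 : Inv ρ0) (h : Inv ρ) (hs : Sub ρ0 ρ) (z : Fx ρ0) :
    (rt ρ0 ρ z).1 = ρ z.1 := by
  have hz : ρ0 (ρ z.1) = ρ z.1 := fx_fx h0 h hs z.1 z.2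
  unfold rt
  rw [dif_pos hz]

/-- the second stage is an involution -/
theorem rt_inv {X : Type} {ρ0 ρ : X → X} (h0 : Inv ρ0) (h : Inv ρ) (hs : Sub ρ0 ρ) :
    Inv (rt ρ0 ρ) := by
  intro z
  apply Subtype.ext
  rw [rt_val h0 h hs, rt_val h0 h hs, h]

/-- moved points -/
theorem mv_eq {X : Type} [Fintype X] {ρ0 ρ : X → X} (h0 : Inv ρ0) (h : Inv ρ) (hs : Sub ρ0 ρ) :
    mv ρ = mv ρ0 + mv (rt ρ0 ρ) := by
  unfold mv
  have e1 : (univ.filter fun x : X => ρ x ≠ x) =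
      (univ.filter fun x : X => ρ0 x ≠ x) ∪ (univ.filter fun x : X => ρ0 x = x ∧ ρ x ≠ x) := by
    ext x
    simp only [mem_filter, mem_univ, true_and, mem_union]
    constructor
    · intro hx
      by_cases h1 : ρ0 x = x
      · exact Or.inr ⟨h1, hx⟩
      · exact Or.inl h1
    · rintro (h1 | ⟨_, h2⟩)
      · rw [hs x h1]
        exact h1
      · exact h2
  have e2 : Disjoint (univ.filter fun x : X => ρ0 x ≠ x)
      (univ.filter fun x : X => ρ0 x = x ∧ ρ x ≠ x) := by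
    rw [Finset.disjoint_left]
    intro x hx hx'
    simp only [mem_filter, mem_univ, true_and] at hx hx'
    exact hx hx'.1
  rw [e1, card_union_of_disjoint e2]
  congr 1
  symm
  apply Finset.card_bij (fun (z : Fx ρ0) _ => z.1)
  · intro z hz
    simp only [mem_filter, mem_univ, true_and] at hz ⊢
    refine ⟨z.2, ?_⟩
    intro hc
    apply hz
    apply Subtype.ext
    rw [rt_val h0 h hs, hc]
  · intro z _ z' _ hzz
    exact Subtype.ext hzz
  · intro x hx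
    simp only [mem_filter, mem_univ, true_and] at hx
    refine ⟨⟨x, hx.1⟩, ?_, rfl⟩
    simp only [mem_filter, mem_univ, true_and]
    intro hc
    apply hx.2
    have := congrArg Subtype.val hc
    rw [rt_val h0 h hs] at this
    exact this

/-- map from the components of `ρ` to the two stage components -/
noncomputable def fwd (h0 : Inv ρ0) (h : Inv ρ) (hs : Sub ρ0 ρ) :
    Cm b ρ → Cm (qm b ρ0) (rt ρ0 ρ) :=
  Quot.lift (fun u => Quot.mk _ (Quot.mk _ u : Cm b ρ0)) (by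
    rintro u v ⟨x, rfl, rfl⟩
    by_cases hx : ρ0 x = x
    · apply Quot.sound
      refine ⟨⟨x, hx⟩, rfl, ?_⟩
      show (Quot.mk _ (b (rt ρ0 ρ ⟨x, hx⟩).1) : Cm b ρ0) = Quot.mk _ (b (ρ x))
      rw [rt_val h0 h hs]
    · have e : (Quot.mk _ (b x) : Cm b ρ0) = Quot.mk _ (b (ρ x)) := by
        apply Quot.sound
        exact ⟨x, rfl, by rw [hs x hx]⟩
      rw [e])

/-- inner part of the inverse map -/
noncomputable def bwd0 (hs : Sub ρ0 ρ) : Cm b ρ0 → Cm b ρ :=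
  Quot.lift (fun u => (Quot.mk _ u : Cm b ρ)) (by
    rintro u v ⟨x, rfl, rfl⟩
    by_cases hx : ρ0 x = x
    · rw [hx]
    · apply Quot.sound
      exact ⟨x, rfl, by rw [hs x hx]⟩)

/-- inverse map -/
noncomputable def bwd (h0 : Inv ρ0) (h : Inv ρ) (hs : Sub ρ0 ρ) :
    Cm (qm b ρ0) (rt ρ0 ρ) → Cm b ρ :=
  Quot.lift (bwd0 b ρ0 ρ hs) (by
    rintro K L ⟨z, rfl, rfl⟩
    show (Quot.mk _ (b z.1) : Cm b ρ) = Quot.mk _ (b (rt ρ0 ρ z).1)
    rw [rt_val h0 h hs]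
    exact Quot.sound ⟨z.1, rfl, rfl⟩)

/-- the two kinds of components correspond -/
noncomputable def eqv (h0 : Inv ρ0) (h : Inv ρ) (hs : Sub ρ0 ρ) :
    Cm b ρ ≃ Cm (qm b ρ0) (rt ρ0 ρ) where
  toFun := fwd b ρ0 ρ h0 h hs
  invFun := bwd b ρ0 ρ h0 h hs
  left_inv := by
    intro K
    induction K using Quot.ind
    rfl
  right_inv := by
    intro K
    induction K using Quot.ind
    rename_i K
    induction K using Quot.ind
    rfl

end TwoSTX

/-- two stages -/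
theorem p_2ST (h1 : S_ncle) : S_2ST := by
  intro X W _ _ b ρ0 ρ h0 h hs
  have hi := TwoSTX.rt_inv h0 h hs
  have hn : nc b ρ = nc (qm b ρ0) (rt ρ0 ρ) := Nat.card_congr (TwoSTX.eqv b ρ0 ρ h0 h hs)
  have hm := TwoSTX.mv_eq h0 h hs
  refine ⟨hi, TwoSTX.rt_val h0 h hs, hn, hm, ?_⟩
  have a1 := h1 X W b ρ0 h0
  have a2 := h1 (Fx ρ0) (Cm b ρ0) (qm b ρ0) (rt ρ0 ρ) hi
  have a3 : nc b ρ0 = Fintype.card (Cm b ρ0) := Nat.card_eq_fintype_card
  unfold Tre For
  constructor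
  · rintro ⟨_, b1, b2⟩
    rw [hn] at b1
    refine ⟨⟨h0, ?_⟩, hi, b1, ?_⟩ <;> omega
  · rintro ⟨⟨_, b1⟩, _, b2, b3⟩
    refine ⟨h, ?_, ?_⟩
    · rw [hn, b2]
    · omega

end Pool.Agent.ALM
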