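import Pool.Agent.Lib.MP_fc2a59_co.ALM.T.Stm

set_option autoImplicit false

namespace Pool.Agent.ALM

open Finset
open scoped Classical

namespace JcX

theorem mem_mv {X : Type} [Fintype X] (ρ : X → X) (x : X) :
    x ∈ (univ.filter fun x => ρ x ≠ x) ↔ ρ x ≠ x := by
  rw [Finset.mem_filter]
  exact ⟨fun h => h.2, fun h => ⟨Finset.mem_univ _, h⟩⟩

variable {V : Type} [Fintype V]

theorem mv_rs (σ : Pt V → Pt V) (hσ : IsPr σ) (A : Finset V) :
    mv (rs (fun x : Pt V => x.1 ∈ A) σ) =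
      (univ.filter fun x : Pt V => x.1 ∈ A ∧ (σ x).1 ∈ A).card := by
  unfold mv
  refine Finset.card_bij (fun x _ => x.1) ?_ ?_ ?_
  · intro x hx
    have hx := (mem_mv _ x).1 hx
    rw [Finset.mem_filter]
    refine ⟨Finset.mem_univ _, x.2, ?_⟩
    by_contra h
    apply hx
    unfold rs
    rw [dif_neg h]
  · intro x _ y _ h
    exact Subtype.ext h
  · intro x hx
    rw [Finset.mem_filter] at hx
    refine ⟨⟨x, hx.2.1⟩, (mem_mv _ _).2 ?_, rfl⟩
    unfold rs
    rw [dif_pos (show (σ x).1 ∈ A from hx.2.2)]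
    intro h
    exact (hσ x).2 (congrArg Subtype.val h)

theorem card_pts (A : Finset V) : (univ.filter fun x : Pt V => x.1 ∈ A).card = 3 * A.card := by
  have h : (univ.filter fun x : Pt V => x.1 ∈ A) = A ×ˢ (univ : Finset (Fin 3)) := by
    ext x
    simp
  rw [h, Finset.card_product, Finset.card_univ, Fintype.card_fin, mul_comm]

theorem out_card (σ : Pt V → Pt V) (hσ : IsPr σ) (A : Finset V) (h : TreeOn Prod.fst σ A) :
    (univ.filter fun x : Pt V => x.1 ∈ A ∧ (σ x).1 ∉ A).card = A.card + 2 ∧ 0 < A.card := by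
  have h1 := h.2.2
  rw [mv_rs σ hσ A, Fintype.card_coe] at h1
  have h2 : (univ.filter fun x : Pt V => x.1 ∈ A ∧ (σ x).1 ∈ A).card +
      (univ.filter fun x : Pt V => x.1 ∈ A ∧ (σ x).1 ∉ A).card = 3 * A.card := by
    rw [← card_pts A, ← Finset.filter_filter, ← Finset.filter_filter,
      Finset.card_filter_add_card_filter_not]
  omega

end JcX

open JcX in
theorem p_Jc : S_Jc := by
  intro V _ σ A hσ hJ
  obtain ⟨h1, h2⟩ := hJ
  obtain ⟨a1, a2⟩ := out_card σ hσ A h1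
  obtain ⟨b1, _⟩ := out_card σ hσ Aᶜ h2
  have h3 : (univ.filter fun x : Pt V => x.1 ∈ A ∧ (σ x).1 ∉ A).card =
      (univ.filter fun x : Pt V => x.1 ∈ Aᶜ ∧ (σ x).1 ∉ Aᶜ).card := by
    refine Finset.card_nbij' σ σ ?_ ?_ (fun x _ => (hσ x).1) (fun x _ => (hσ x).1)
    · intro x hx
      rw [Finset.mem_coe, Finset.mem_filter] at hx ⊢
      simp only [Finset.mem_compl, not_not]
      rw [(hσ x).1]
      exact ⟨Finset.mem_univ _, hx.2.2, hx.2.1⟩
    · intro x hx
      rw [Finset.mem_coe, Finset.mem_filter] at hx ⊢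
      simp only [Finset.mem_compl, not_not] at hx
      rw [(hσ x).1]
      exact ⟨Finset.mem_univ _, hx.2.2, hx.2.1⟩
  exact ⟨by omega, a2⟩

end Pool.Agent.ALM
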