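import Pool.Agent.Lib.MP_fc2a59_co.ALM.T.p_pr
import Pool.Agent.Lib.MP_fc2a59_co.ALM.T.p_Jc

set_option autoImplicit false

/-!
# Project ALM, piece p_L3: pairings containing a partial pairing for which a set is good
-/

namespace Pool.Agent.ALM

open Finset
open scoped Classical

namespace L3X

open prX

theorem cf {α : Type} [Fintype α] (p : α → Prop) [DecidablePred p] :
    (univ.filter p).card = Nat.card {x // p x} := by
  rw [Nat.card_eq_fintype_card, Fintype.card_subtype]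

theorem cfp {X : Type} [Fintype X] (p : (X → X) → Prop) [DecidablePred p] :
    ((prs X).filter p).card = Nat.card {σ : X → X // IsPr σ ∧ p σ} := by
  have h : (prs X).filter p = univ.filter (fun σ => IsPr σ ∧ p σ) := by
    ext σ
    rw [mem_filter, mem_filter, mem_prs]
    exact ⟨fun h => ⟨mem_univ _, h⟩, fun h => h.2⟩
  rw [h, cf]

theorem T_gen (h1 : S_T) (X W : Type) [Fintype X] [Fintype W] (b : X → W)
    (hX : 0 < Fintype.card X) (hW : 0 < Fintype.card W)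
    (hle : 2 * Fintype.card W ≤ Fintype.card X + 2) :
    Nat.card {ρ : X → X // Tre b ρ} *
        (Fintype.card X + 2 - 2 * Fintype.card W).factorial =
      (∏ w : W, Nat.card {x // b x = w}) *
        (Fintype.card X - Fintype.card W).factorial := by
  have h := (h1 X W b hX hW).2 hle
  rw [cf] at h
  rw [h]
  congr 1
  refine prod_congr rfl fun w _ => ?_
  rw [cf]

theorem free {X W : Type} [Fintype X] [Fintype W] {b : X → W} {ρ : X → X} (h : Tre b ρ) :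
    Nat.card (Fx ρ) + 2 * Fintype.card W = Fintype.card X + 2 := by
  have h1 := h.2.2
  have h2 := card_Fx ρ
  rw [← Nat.card_eq_fintype_card] at h2
  omega

theorem dec_gen (h5 : S_DEC) (Z : Type) [Fintype Z] (P Q : Z → Prop) (hPQ : ∀ z, Q z ↔ ¬ P z)
    (T1 : ({z // P z} → {z // P z}) → Prop) (T2 : ({z // Q z} → {z // Q z}) → Prop) (f : ℕ)
    (i1 : ∀ ρ, T1 ρ → Inv ρ) (i2 : ∀ ρ, T2 ρ → Inv ρ)
    (hA : ∀ ρ, T1 ρ → Nat.card (Fx ρ) = f) (hB : ∀ ρ, T2 ρ → Nat.card (Fx ρ) = f) :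
    Nat.card {τ : Z → Z // IsPr τ ∧ T1 (rs P τ) ∧ T2 (rs Q τ)} =
      Nat.card {ρ // T1 ρ} * Nat.card {ρ // T2 ρ} * f.factorial := by
  rw [← cfp, h5 Z P Q hPQ T1 T2, ← cf, ← cf]
  have e1 : univ.filter (fun ρ : {z // P z} → {z // P z} => Inv ρ ∧ T1 ρ) =
      univ.filter (fun ρ => T1 ρ) :=
    filter_congr fun ρ _ => ⟨fun h' => h'.2, fun h' => ⟨i1 ρ h', h'⟩⟩
  have e2 : univ.filter (fun ρ : {z // Q z} → {z // Q z} => Inv ρ ∧ T2 ρ) =
      univ.filter (fun ρ => T2 ρ) :=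
    filter_congr fun ρ _ => ⟨fun h' => h'.2, fun h' => ⟨i2 ρ h', h'⟩⟩
  rw [e1, e2]
  have h6 : ∀ ρ1 ∈ univ.filter (fun ρ : {z // P z} → {z // P z} => T1 ρ),
      (∑ ρ2 ∈ univ.filter (fun ρ : {z // Q z} → {z // Q z} => T2 ρ),
        if Fintype.card (Fx ρ1) = Fintype.card (Fx ρ2) then (Fintype.card (Fx ρ1)).factorial
          else 0) =
      (univ.filter (fun ρ : {z // Q z} → {z // Q z} => T2 ρ)).card * f.factorial := by
    intro ρ1 hρ1
    rw [mem_filter] at hρ1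
    rw [← smul_eq_mul, ← sum_const]
    refine sum_congr rfl fun ρ2 hρ2 => ?_
    rw [mem_filter] at hρ2
    rw [← Nat.card_eq_fintype_card, ← Nat.card_eq_fintype_card, hA ρ1 hρ1.2, hB ρ2 hρ2.2,
      if_pos rfl]
  rw [sum_congr rfl h6, sum_const, smul_eq_mul, mul_assoc]

theorem inv_rs {X : Type} (P : X → Prop) {F : X → X} (hF : Inv F) : Inv (rs P F) := by
  intro x
  by_cases h : P (F x.1)
  · have h1 : rs P F x = ⟨F x.1, h⟩ := by rw [rs, dif_pos h]
    rw [h1, rs]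
    have h2 : P (F (F x.1)) := by rw [hF]; exact x.2
    rw [dif_pos h2]
    exact Subtype.ext (hF x.1)
  · have h1 : rs P F x = x := by rw [rs, dif_neg h]
    rw [h1, h1]

theorem rs_pos {X : Type} {P : X → Prop} {F : X → X} (x : {x : X // P x}) (h : P (F x.1)) :
    rs P F x = ⟨F x.1, h⟩ := by rw [rs, dif_pos h]

theorem rs_neg {X : Type} {P : X → Prop} {F : X → X} (x : {x : X // P x}) (h : ¬ P (F x.1)) :
    rs P F x = x := by rw [rs, dif_neg h]

theorem inv_pr {X : Type} {σ : X → X} (h : IsPr σ) : Inv σ := fun x => (h x).1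

theorem sub_rs {X : Type} {P : X → Prop} {F σ : X → X} (h : Sub F σ) :
    Sub (rs P F) (rs P σ) := by
  intro x hx
  by_cases h1 : P (F x.1)
  · rw [rs_pos x h1] at hx ⊢
    have h2 : F x.1 ≠ x.1 := fun h3 => hx (Subtype.ext h3)
    have h3 := h x.1 h2
    have h4 : P (σ x.1) := by rw [h3]; exact h1
    rw [rs_pos x h4]
    exact Subtype.ext h3
  · exact absurd (rs_neg x h1) hx

variable {V : Type} [Fintype V]

/-- the block map of the free points in `A` -/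
def bA (F : Pt V → Pt V) (A : Finset V) (z : {z : Fx F // z.1.1 ∈ A}) :
    Cm (bl Prod.fst A) (rs (fun x : Pt V => x.1 ∈ A) F) :=
  Quot.mk _ ⟨z.1.1.1, z.2⟩

theorem Tre_inst {X W : Type} (i j : Fintype X) (k l : Fintype W) (b : X → W) (ρ : X → X) :
    @Tre X W i k b ρ ↔ @Tre X W j l b ρ := by
  have h1 : i = j := Subsingleton.elim _ _
  have h2 : k = l := Subsingleton.elim _ _
  subst h1
  subst h2
  rfl

theorem side (h2 : S_2ST) (h3 : S_rem) {F : Pt V → Pt V} (hF : Inv F) (A : Finset V)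
    {τ : Fx F → Fx F} (hτ : IsPr τ) :
    TreeOn Prod.fst (exd F τ) A ↔
      For (bl Prod.fst A) (rs (fun x : Pt V => x.1 ∈ A) F) ∧
        Tre (bA F A) (rs (fun z : Fx F => z.1.1 ∈ A) τ) := by
  have hσ := exd_pr hF hτ
  have hsub : Sub F (exd F τ) := exd_sub τ
  obtain ⟨_, hrt, _, _, h4⟩ := h2 {x : Pt V // x.1 ∈ A} {v : V // v ∈ A} (bl Prod.fst A)
    (rs (fun x : Pt V => x.1 ∈ A) F) (rs (fun x : Pt V => x.1 ∈ A) (exd F τ))
    (inv_rs _ hF) (inv_rs _ (inv_pr hσ)) (sub_rs hsub)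
  unfold TreeOn
  rw [h4]
  refine and_congr Iff.rfl ?_
  have hfx : ∀ z : {z : Fx F // z.1.1 ∈ A},
      rs (fun x : Pt V => x.1 ∈ A) F ⟨z.1.1, z.2⟩ = ⟨z.1.1, z.2⟩ := by
    intro z
    by_cases h5 : (F z.1.1).1 ∈ A
    · rw [rs_pos _ h5]
      exact Subtype.ext z.1.2
    · exact rs_neg _ h5
  have key := (h3 (Fx (rs (fun x : Pt V => x.1 ∈ A) F)) (Cm (bl Prod.fst A) (rs (fun x : Pt V => x.1 ∈ A) F))
    {z : Fx F // z.1.1 ∈ A} (qm (bl Prod.fst A) (rs (fun x : Pt V => x.1 ∈ A) F))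
    (rt (rs (fun x : Pt V => x.1 ∈ A) F) (rs (fun x : Pt V => x.1 ∈ A) (exd F τ)))
    (rs (fun z : Fx F => z.1.1 ∈ A) τ) (fun z => ⟨⟨z.1.1, z.2⟩, hfx z⟩)
    (by
      intro z z' h
      have h5 : z.1.1 = z'.1.1 := congrArg (fun y => y.1.1) h
      exact Subtype.ext (Subtype.ext h5))
    (by
      intro x hx
      apply Subtype.ext
      rw [hrt x]
      have h5 : F x.1.1 ≠ x.1.1 := by
        intro h6
        exact hx ⟨⟨x.1.1, h6⟩, x.1.2⟩ rfl
      have h6 : (exd F τ) x.1.1 = F x.1.1 := hsub _ h5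
      by_cases h7 : (F x.1.1).1 ∈ A
      · exfalso
        have h8 := x.2
        rw [rs_pos _ h7] at h8
        exact h5 (congrArg Subtype.val h8)
      · have h8 : ¬ ((exd F τ) x.1.1).1 ∈ A := by rw [h6]; exact h7
        exact rs_neg _ h8)
    (by
      intro z
      apply Subtype.ext
      rw [hrt]
      have h5 : (exd F τ) z.1.1 = (τ z.1).1 := exd_fix τ z.1
      by_cases h7 : (τ z.1).1.1 ∈ A
      · have h8 : ((exd F τ) z.1.1).1 ∈ A := by rw [h5]; exact h7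
        rw [rs_pos (P := fun z : Fx F => z.1.1 ∈ A) z h7, rs_pos _ h8]
        exact Subtype.ext h5
      · have h8 : ¬ ((exd F τ) z.1.1).1 ∈ A := by rw [h5]; exact h7
        rw [rs_neg (P := fun z : Fx F => z.1.1 ∈ A) z h7, rs_neg _ h8])).2.2.2.2
  exact (Tre_inst _ _ _ _ _ _).trans (key.trans Iff.rfl)

/-- reduction to the free points -/
theorem card_red (h2 : S_2ST) (h3 : S_rem) {F : Pt V → Pt V} (hF : Inv F) (A : Finset V) :
    Nat.card {σ : Pt V → Pt V // IsPr σ ∧ Sub F σ ∧ Jp σ A} =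
      Nat.card {τ : Fx F → Fx F // IsPr τ ∧ FF2 F A ∧
        Tre (bA F A) (rs (fun z : Fx F => z.1.1 ∈ A) τ) ∧
        Tre (bA F Aᶜ) (rs (fun z : Fx F => z.1.1 ∈ Aᶜ) τ)} := by
  symm
  have key : ∀ τ : Fx F → Fx F, IsPr τ → (Jp (exd F τ) A ↔
      FF2 F A ∧ Tre (bA F A) (rs (fun z : Fx F => z.1.1 ∈ A) τ) ∧
        Tre (bA F Aᶜ) (rs (fun z : Fx F => z.1.1 ∈ Aᶜ) τ)) := by
    intro τ hτ
    unfold Jp FF2
    rw [side h2 h3 hF A hτ, side h2 h3 hF Aᶜ hτ]
    tauto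
  refine Nat.card_eq_of_bijective (fun τ => ⟨exd F τ.1, exd_pr hF τ.2.1, exd_sub τ.1,
    (key τ.1 τ.2.1).2 τ.2.2⟩) ⟨?_, ?_⟩
  · intro τ τ' h
    apply Subtype.ext
    funext z
    apply Subtype.ext
    rw [← exd_fix τ.1 z, ← exd_fix τ'.1 z]
    exact congrFun (congrArg Subtype.val h) z.1
  · rintro ⟨σ, hσ, hs, hJ⟩
    have hex : exd F (fun z : Fx F => (⟨σ z.1, fix hF hσ hs z.2⟩ : Fx F)) = σ := by
      funext z
      by_cases hz : F z = z
      · exact exd_fix _ ⟨z, hz⟩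
      · rw [exd_mv _ hz]
        exact (hs z hz).symm
    have hpr : IsPr (fun z : Fx F => (⟨σ z.1, fix hF hσ hs z.2⟩ : Fx F)) := by
      intro z
      exact ⟨Subtype.ext (hσ z.1).1, fun h => (hσ z.1).2 (congrArg Subtype.val h)⟩
    refine ⟨⟨fun z => ⟨σ z.1, fix hF hσ hs z.2⟩, hpr, (key _ hpr).1 ?_⟩, Subtype.ext hex⟩
    rw [hex]
    exact hJ

/-- the moved points inside `A` -/
theorem fI_eq {F : Pt V → Pt V} (A : Finset V) :
    fI F A = (univ.filter fun x : Pt V => x.1 ∈ A ∧ F x ≠ x ∧ (F x).1 ∈ A).card := by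
  unfold fI mv
  refine Finset.card_bij (fun x _ => x.1) ?_ ?_ ?_
  · intro x hx
    have hx := (JcX.mem_mv _ x).1 hx
    rw [Finset.mem_filter]
    by_cases h : (F x.1).1 ∈ A
    · rw [rs_pos (P := fun x : Pt V => x.1 ∈ A) x h] at hx
      exact ⟨Finset.mem_univ _, x.2, fun h' => hx (Subtype.ext h'), h⟩
    · exact absurd (rs_neg (P := fun x : Pt V => x.1 ∈ A) x h) hx
  · intro x _ y _ h
    exact Subtype.ext h
  · intro x hx
    rw [Finset.mem_filter] at hx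
    refine ⟨⟨x, hx.2.1⟩, (JcX.mem_mv _ _).2 ?_, rfl⟩
    rw [rs_pos (P := fun x : Pt V => x.1 ∈ A) ⟨x, hx.2.1⟩ hx.2.2.2]
    intro h
    exact hx.2.2.1 (congrArg Subtype.val h)

theorem cardZ {F : Pt V → Pt V} (A : Finset V) :
    Fintype.card {z : Fx F // z.1.1 ∈ A} =
      (univ.filter fun x : Pt V => x.1 ∈ A ∧ F x = x).card := by
  rw [← Fintype.card_coe]
  refine Fintype.card_congr ⟨fun z => ⟨z.1.1, ?_⟩, fun x => ⟨⟨x.1, ?_⟩, ?_⟩, ?_, ?_⟩
  · rw [Finset.mem_filter]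
    exact ⟨Finset.mem_univ _, z.2, z.1.2⟩
  · have := x.2
    rw [Finset.mem_filter] at this
    exact this.2.2
  · have := x.2
    rw [Finset.mem_filter] at this
    exact this.2.1
  · intro z
    rfl
  · intro x
    rfl

theorem count {F : Pt V → Pt V} (A : Finset V) :
    Fintype.card {z : Fx F // z.1.1 ∈ A} + fI F A + fX F A = 3 * A.card := by
  rw [cardZ, fI_eq, ← JcX.card_pts A]
  unfold fX
  rw [card_filter, card_filter, card_filter, card_filter, ← sum_add_distrib, ← sum_add_distrib]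
  refine sum_congr rfl fun x _ => ?_
  by_cases h1 : x.1 ∈ A
  · by_cases h2 : F x = x
    · have h3 : (F x).1 ∈ A := by rw [h2]; exact h1
      simp [h1, h2]
    · by_cases h3 : (F x).1 ∈ A
      · simp [h1, h2, h3]
      · simp [h1, h2, h3]
  · simp [h1]

theorem fX_compl {F : Pt V → Pt V} (hF : Inv F) (A : Finset V) : fX F Aᶜ = fX F A := by
  unfold fX
  refine Finset.card_nbij' F F ?_ ?_ (fun x _ => hF x) (fun x _ => hF x)
  · intro x hx
    rw [Finset.mem_coe, Finset.mem_filter] at hx ⊢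
    simp only [Finset.mem_compl, not_not] at hx
    rw [hF x]
    exact ⟨Finset.mem_univ _, hx.2.2, hx.2.1⟩
  · intro x hx
    rw [Finset.mem_coe, Finset.mem_filter] at hx ⊢
    simp only [Finset.mem_compl, not_not]
    rw [hF x]
    exact ⟨Finset.mem_univ _, hx.2.2, hx.2.1⟩

theorem mv_eq {F : Pt V → Pt V} (hF : Inv F) (A : Finset V) :
    mv F = fI F A + fI F Aᶜ + 2 * fX F A := by
  have h1 : mv F = (univ.filter fun x : Pt V => x.1 ∈ A ∧ F x ≠ x ∧ (F x).1 ∈ A).card +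
      (univ.filter fun x : Pt V => x.1 ∈ Aᶜ ∧ F x ≠ x ∧ (F x).1 ∈ Aᶜ).card +
      fX F A + fX F Aᶜ := by
    unfold mv fX
    rw [card_filter, card_filter, card_filter, card_filter, card_filter, ← sum_add_distrib,
      ← sum_add_distrib, ← sum_add_distrib]
    refine sum_congr rfl fun x _ => ?_
    by_cases h1 : x.1 ∈ A
    · by_cases h2 : F x = x
      · simp [h1, h2]
      · by_cases h3 : (F x).1 ∈ A
        · simp [h1, h2, h3]
        · simp [h1, h2, h3]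
    · by_cases h2 : F x = x
      · simp [h1, h2]
      · by_cases h3 : (F x).1 ∈ A
        · simp [h1, h2, h3]
        · simp [h1, h2, h3]
  rw [h1, ← fI_eq, ← fI_eq, fX_compl hF]
  ring

theorem dk_eq {F : Pt V → Pt V} (A : Finset V)
    (K : Cm (bl Prod.fst A) (rs (fun x : Pt V => x.1 ∈ A) F)) :
    Nat.card {z // bA F A z = K} = DK F A K := by
  unfold DK
  rw [cf]
  refine Nat.card_congr ⟨fun z => ⟨⟨z.1.1.1, z.1.2⟩, z.1.1.2, z.2⟩,
    fun x => ⟨⟨⟨x.1.1, x.2.1⟩, x.1.2⟩, x.2.2⟩, fun _ => rfl, fun _ => rfl⟩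

/-- number of the trees on one side -/
theorem trees (h1 : S_T) {F : Pt V → Pt V} (hF : Inv F) {m : ℕ} {A : Finset V} (hA : A.card = m)
    (hm0 : 0 < m) (hmv : mv F ≤ 2 * m)
    (hfor : For (bl Prod.fst A) (rs (fun x : Pt V => x.1 ∈ A) F)) :
    (∀ ρ : {z : Fx F // z.1.1 ∈ A} → {z : Fx F // z.1.1 ∈ A}, Tre (bA F A) ρ →
      Nat.card (Fx ρ) = m + 2 - fX F A) ∧
    Nat.card {ρ : {z : Fx F // z.1.1 ∈ A} → {z : Fx F // z.1.1 ∈ A} // Tre (bA F A) ρ} *
      (m + 2 - fX F A).factorial =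
      (∏ K, DK F A K) * (2 * m - fI F A / 2 - fX F A).factorial := by
  have c1 := count (F := F) A
  have c2 := mv_eq hF A
  have hnc : nc (bl Prod.fst A) (rs (fun x : Pt V => x.1 ∈ A) F) =
      Fintype.card (Cm (bl Prod.fst A) (rs (fun x : Pt V => x.1 ∈ A) F)) := by
    unfold nc
    rw [Nat.card_eq_fintype_card]
  have c3 : fI F A + 2 * Fintype.card (Cm (bl Prod.fst A) (rs (fun x : Pt V => x.1 ∈ A) F)) =
      2 * m := by
    have := hfor.2
    rw [hnc, Fintype.card_coe, hA] at this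
    exact this
  have hne : 0 < Fintype.card (Cm (bl Prod.fst A) (rs (fun x : Pt V => x.1 ∈ A) F)) := by
    have hA0 : 0 < A.card := by omega
    obtain ⟨v, hv⟩ := Finset.card_pos.1 hA0
    exact Fintype.card_pos_iff.2 ⟨Quot.mk _ ⟨v, hv⟩⟩
  rw [hA] at c1
  have hT := T_gen h1 {z : Fx F // z.1.1 ∈ A}
    (Cm (bl Prod.fst A) (rs (fun x : Pt V => x.1 ∈ A) F))
    (bA F A) (by omega) hne (by omega)
  have e1 : Fintype.card {z : Fx F // z.1.1 ∈ A} + 2 -
      2 * Fintype.card (Cm (bl Prod.fst A) (rs (fun x : Pt V => x.1 ∈ A) F)) =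
      m + 2 - fX F A := by omega
  have e2 : Fintype.card {z : Fx F // z.1.1 ∈ A} -
      Fintype.card (Cm (bl Prod.fst A) (rs (fun x : Pt V => x.1 ∈ A) F)) =
      2 * m - fI F A / 2 - fX F A := by omega
  constructor
  · intro ρ hρ
    have h6 := free hρ
    omega
  · rw [e1, e2] at hT
    rw [hT]
    congr 1
    refine prod_congr rfl fun K _ => ?_
    rw [dk_eq]

end L3X

open L3X prX in
theorem p_L3 (h1 : S_T) (h2 : S_2ST) (h3 : S_rem) (_h4 : S_inv) (h5 : S_DEC) : S_L3 := by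
  intro V _ m F A hF hm0 hA hA' hmv
  rw [cfp, card_red h2 h3 hF A]
  constructor
  · intro h
    have hE : IsEmpty {τ : Fx F → Fx F // IsPr τ ∧ FF2 F A ∧
        Tre (bA F A) (rs (fun z : Fx F => z.1.1 ∈ A) τ) ∧
        Tre (bA F Aᶜ) (rs (fun z : Fx F => z.1.1 ∈ Aᶜ) τ)} := ⟨fun τ => h τ.2.2.1⟩
    exact Nat.card_of_isEmpty
  · intro h
    obtain ⟨a1, a2⟩ := trees h1 hF hA hm0 hmv h.1
    obtain ⟨b1, b2⟩ := trees h1 hF hA' hm0 hmv h.2
    rw [fX_compl hF A] at b1 b2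
    have hD := dec_gen h5 (Fx F) (fun z => z.1.1 ∈ A) (fun z => z.1.1 ∈ Aᶜ) (fun z => mem_compl)
      (fun ρ => Tre (bA F A) ρ) (fun ρ => Tre (bA F Aᶜ) ρ) (m + 2 - fX F A)
      (fun ρ hρ => hρ.1) (fun ρ hρ => hρ.1) a1 b1
    have hE : Nat.card {τ : Fx F → Fx F // IsPr τ ∧ FF2 F A ∧
        Tre (bA F A) (rs (fun z : Fx F => z.1.1 ∈ A) τ) ∧
        Tre (bA F Aᶜ) (rs (fun z : Fx F => z.1.1 ∈ Aᶜ) τ)} =
        Nat.card {τ : Fx F → Fx F // IsPr τ ∧
        Tre (bA F A) (rs (fun z : Fx F => z.1.1 ∈ A) τ) ∧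
        Tre (bA F Aᶜ) (rs (fun z : Fx F => z.1.1 ∈ Aᶜ) τ)} :=
      Nat.card_congr ⟨fun τ => ⟨τ.1, τ.2.1, τ.2.2.2⟩, fun τ => ⟨τ.1, τ.2.1, h, τ.2.2⟩,
        fun _ => rfl, fun _ => rfl⟩
    rw [hE, hD]
    calc _ = (Nat.card {ρ : {z : Fx F // z.1.1 ∈ A} → {z : Fx F // z.1.1 ∈ A} // Tre (bA F A) ρ} *
          (m + 2 - fX F A).factorial) *
        (Nat.card {ρ : {z : Fx F // z.1.1 ∈ Aᶜ} → {z : Fx F // z.1.1 ∈ Aᶜ} // Tre (bA F Aᶜ) ρ} *
          (m + 2 - fX F A).factorial) := by ring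
      _ = _ := by
        rw [a2, b2]
        ring

end Pool.Agent.ALM
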