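import Pool.Agent.Lib.MP_fc2a59_co.ALM.T.Stm

set_option autoImplicit false

/-!
# Project ALM, piece T/TB: number of bijections forming a bipartite spanning tree
-/

namespace Pool.Agent.ALM

open Finset
open scoped Classical

namespace TBX

/-- connectivity of the bipartite graph of `e` -/
def Cn {X Y W Z : Type} (b : X → W) (b' : Y → Z) (e : X ≃ Y) : Prop :=
  ∀ p q : W ⊕ Z, Relation.EqvGen (rb b b' e) p q

lemma card_iff {X Y W Z : Type} (b : X → W) (b' : Y → Z) (e : X ≃ Y) (hW : Nonempty W) :
    Nat.card (Quot (rb b b' e)) = 1 ↔ Cn b b' e := by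
  rw [Nat.card_eq_one_iff_unique]
  constructor
  · rintro ⟨h, -⟩ p q
    exact Quot.eqvGen_exact (h.elim (Quot.mk _ p) (Quot.mk _ q))
  · intro h
    refine ⟨⟨?_⟩, ?_⟩
    · intro a c
      induction a using Quot.ind
      induction c using Quot.ind
      exact Quot.eqvGen_sound (h _ _)
    · exact ⟨Quot.mk _ (Sum.inl (Classical.choice hW))⟩

/-- mapping of generated equivalences -/
lemma map_eqv {A B : Type} {r : A → A → Prop} {s : B → B → Prop} (f : A → B)
    (h : ∀ p q, r p q → Relation.EqvGen s (f p) (f q)) {p q : A} (hpq : Relation.EqvGen r p q) :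
    Relation.EqvGen s (f p) (f q) := by
  induction hpq with
  | rel x y hxy => exact h _ _ hxy
  | refl x => exact Relation.EqvGen.refl _
  | symm x y _ ih => exact Relation.EqvGen.symm _ _ ih
  | trans x y z _ _ ih1 ih2 => exact Relation.EqvGen.trans _ _ _ ih1 ih2

lemma cn_symm {X Y W Z : Type} (b : X → W) (b' : Y → Z) (e : X ≃ Y) (h : Cn b b' e) :
    Cn b' b e.symm := by
  intro p q
  have := map_eqv (s := rb b' b e.symm) (Sum.swap : W ⊕ Z → Z ⊕ W) (r := rb b b' e) (by
    rintro p q ⟨x, rfl, rfl⟩
    refine Relation.EqvGen.symm _ _ (Relation.EqvGen.rel _ _ ⟨e x, ?_, ?_⟩)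
    · rfl
    · simp) (h p.swap q.swap)
  simpa using this

lemma count_symm {X Y W Z : Type} [Fintype X] [Fintype Y] (b : X → W) (b' : Y → Z) :
    (univ.filter fun e : X ≃ Y => Cn b b' e).card = (univ.filter fun e : Y ≃ X => Cn b' b e).card := by
  refine Finset.card_bij' (fun e _ => e.symm) (fun e _ => e.symm) ?_ ?_ ?_ ?_
  · intro e he
    simp only [mem_filter, mem_univ, true_and] at he ⊢
    exact cn_symm b b' e he
  · intro e he
    simp only [mem_filter, mem_univ, true_and] at he ⊢
    exact cn_symm b' b e he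
  · intro e _; simp
  · intro e _; simp

/-- an empty block on the left: not connected -/
lemma not_cn_of_empty {X Y W Z : Type} (b : X → W) (b' : Y → Z) (e : X ≃ Y) (w : W) (hw : ∀ x, b x ≠ w)
    (z : Z) : ¬ Cn b b' e := by
  intro h
  have key : ∀ p q : W ⊕ Z, Relation.EqvGen (rb b b' e) p q → (p = Sum.inl w ↔ q = Sum.inl w) := by
    intro p q hpq
    induction hpq with
    | rel x y hxy =>
      obtain ⟨t, rfl, rfl⟩ := hxy
      constructor
      · intro h1
        exact absurd (Sum.inl.inj h1) (hw t)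
      · intro h1
        cases h1
    | refl x => exact Iff.rfl
    | symm x y _ ih => exact ih.symm
    | trans x y z _ _ ih1 ih2 => exact ih1.trans ih2
  have := (key _ _ (h (Sum.inl w) (Sum.inr z))).1 rfl
  cases this

/-- number of points in a block -/
noncomputable def D {X W : Type} [Fintype X] (b : X → W) (w : W) : ℕ := (univ.filter fun x => b x = w).card

lemma sum_D {X W : Type} [Fintype X] [Fintype W] (b : X → W) : ∑ w, D b w = Fintype.card X := by
  unfold D
  rw [← Finset.card_univ, Finset.card_eq_sum_card_fiberwise (f := b) (t := univ) (by simp)]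

/-- the extension of a bijection between the complements of two points -/
noncomputable def ext {X Y : Type} (x : X) (y : Y) (e' : {x' : X // x' ≠ x} ≃ {y' : Y // y' ≠ y}) : X ≃ Y where
  toFun a := if h : a = x then y else (e' ⟨a, h⟩).1
  invFun c := if h : c = y then x else (e'.symm ⟨c, h⟩).1
  left_inv := by
    intro a
    by_cases h : a = x
    · simp [h]
    · have h2 : ((e' ⟨a, h⟩).1 : Y) ≠ y := (e' ⟨a, h⟩).2
      simp [h, h2]
  right_inv := by
    intro c
    by_cases h : c = y
    · simp [h]
    · have h2 : ((e'.symm ⟨c, h⟩).1 : X) ≠ x := (e'.symm ⟨c, h⟩).2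
      simp [h, h2]

/-- the restriction -/
def res {X Y : Type} (x : X) (y : Y) (e : X ≃ Y) (h : e x = y) : {x' : X // x' ≠ x} ≃ {y' : Y // y' ≠ y} :=
  e.subtypeEquiv (fun a => by rw [← h]; exact (e.injective.ne_iff).symm)

lemma cn_res {X Y W Z : Type} (b : X → W) (b' : Y → Z) (i : W) (x : X) (hx : b x = i)
    (hu : ∀ x', b x' = i → x' = x) (y : Y) (e : X ≃ Y) (he : e x = y)
    (b1 : {x' : X // x' ≠ x} → {w : W // w ≠ i}) (hb1 : ∀ x', (b1 x').1 = b x'.1) :
    Cn b b' e ↔ Cn b1 (fun y' : {y' : Y // y' ≠ y} => b' y'.1) (res x y e he) := by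
  set r := rb b b' e with hr
  set r1 := rb b1 (fun y' : {y' : Y // y' ≠ y} => b' y'.1) (res x y e he) with hr1
  -- the retraction
  let φ : W ⊕ Z → {w : W // w ≠ i} ⊕ Z := fun p =>
    match p with
    | Sum.inl w => if h : w = i then Sum.inr (b' y) else Sum.inl ⟨w, h⟩
    | Sum.inr z => Sum.inr z
  let ι : {w : W // w ≠ i} ⊕ Z → W ⊕ Z := fun p =>
    match p with
    | Sum.inl w => Sum.inl w.1
    | Sum.inr z => Sum.inr z
  have hφι : ∀ p, φ (ι p) = p := by
    rintro (w | z)
    · simp [φ, ι, w.2]
    · rfl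
  constructor
  · intro h p q
    have := map_eqv (s := r1) φ (r := r) (by
      rintro p q ⟨a, rfl, rfl⟩
      by_cases ha : a = x
      · subst ha
        have : φ (Sum.inl (b a)) = φ (Sum.inr (b' (e a))) := by
          simp [φ, hx, he]
        rw [this]
        exact Relation.EqvGen.refl _
      · have hba : b a ≠ i := fun h => ha (hu a h)
        refine Relation.EqvGen.rel _ _ ⟨⟨a, ha⟩, ?_, ?_⟩
        · simp only [φ, hba, dif_neg, not_false_eq_true]
          congr 1
          exact Subtype.ext (hb1 ⟨a, ha⟩).symm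
        · rfl) (h (ι p) (ι q))
    rwa [hφι, hφι] at this
  · intro h p q
    have h1 : ∀ p, Relation.EqvGen r p (ι (φ p)) := by
      rintro (w | z)
      · by_cases hw : w = i
        · have : ι (φ (Sum.inl w)) = Sum.inr (b' y) := by simp [φ, ι, hw]
          rw [this]
          refine Relation.EqvGen.rel _ _ ⟨x, ?_, ?_⟩
          · rw [hx, hw]
          · rw [he]
        · have : ι (φ (Sum.inl w)) = Sum.inl w := by simp [φ, ι, hw]
          rw [this]
          exact Relation.EqvGen.refl _
      · exact Relation.EqvGen.refl _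
    have h2 := map_eqv (s := r) ι (r := r1) (by
      rintro p q ⟨a, rfl, rfl⟩
      refine Relation.EqvGen.rel _ _ ⟨a.1, ?_, ?_⟩
      · simp only [ι]
        rw [hb1]
      · rfl) (h (φ p) (φ q))
    exact Relation.EqvGen.trans _ _ _ (h1 p)
      (Relation.EqvGen.trans _ _ _ h2 (Relation.EqvGen.symm _ _ (h1 q)))

lemma count_fix {X Y W Z : Type} [Fintype X] [Fintype Y] (b : X → W) (b' : Y → Z) (i : W) (x : X)
    (hx : b x = i) (hu : ∀ x', b x' = i → x' = x) (y : Y)
    (b1 : {x' : X // x' ≠ x} → {w : W // w ≠ i}) (hb1 : ∀ x', (b1 x').1 = b x'.1) :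
    ((univ.filter fun e : X ≃ Y => Cn b b' e).filter fun e => e x = y).card =
      (univ.filter fun e' : {x' : X // x' ≠ x} ≃ {y' : Y // y' ≠ y} =>
        Cn b1 (fun y' : {y' : Y // y' ≠ y} => b' y'.1) e').card := by
  refine Finset.card_bij (fun e he => res x y e (mem_filter.1 he).2) ?_ ?_ ?_
  · intro e he
    have h1 := (mem_filter.1 he).2
    have h2 := (mem_filter.1 (mem_filter.1 he).1).2
    refine mem_filter.2 ⟨mem_univ _, ?_⟩
    exact (cn_res b b' i x hx hu y e h1 b1 hb1).1 h2
  · intro e he e2 he2 h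
    have h1 := (mem_filter.1 he).2
    have h2 := (mem_filter.1 he2).2
    ext a
    by_cases ha : a = x
    · rw [ha, h1, h2]
    · have := congrArg (fun f => (f ⟨a, ha⟩).1) h
      simpa [res] using this
  · intro e' he'
    have hxy : ext x y e' x = y := by simp [ext]
    have hres : res x y (ext x y e') hxy = e' := by
      ext a
      simp [res, ext, a.2]
    refine ⟨ext x y e', ?_, hres⟩
    refine mem_filter.2 ⟨mem_filter.2 ⟨mem_univ _, ?_⟩, hxy⟩
    rw [cn_res b b' i x hx hu y _ hxy b1 hb1, hres]
    exact (mem_filter.1 he').2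

/-- the statement for given types -/
def TBs (X Y W Z : Type) [Fintype X] [Fintype Y] [Fintype W] [Fintype Z] : Prop :=
  ∀ (b : X → W) (b' : Y → Z), Fintype.card X = Fintype.card Y →
  0 < Fintype.card W → 0 < Fintype.card Z → Fintype.card X + 1 = Fintype.card W + Fintype.card Z →
  (univ.filter fun e : X ≃ Y => Cn b b' e).card =
    (∏ w : W, D b w) * (∏ z : Z, D b' z) *
      ((Fintype.card W - 1).factorial * (Fintype.card Z - 1).factorial)

lemma prod_erase_D {Z : Type} [Fintype Z] (f g : Z → ℕ) (z0 : Z) (h : ∀ z, z ≠ z0 → g z = f z) :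
    ∏ z, g z = g z0 * ∏ z ∈ univ.erase z0, f z := by
  rw [← Finset.mul_prod_erase univ g (mem_univ z0)]
  congr 1
  refine Finset.prod_congr rfl fun z hz => h z (Finset.ne_of_mem_erase hz)

/-- restriction of a block map to the complement of a point -/
lemma D_restrict {Y Z : Type} [Fintype Y] (b' : Y → Z) (y : Y) (z : Z) :
    D (fun y' : {y' : Y // y' ≠ y} => b' y'.1) z = if z = b' y then D b' z - 1 else D b' z := by
  have h1 : D (fun y' : {y' : Y // y' ≠ y} => b' y'.1) z = ((univ.filter fun y' => b' y' = z).erase y).card := by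
    unfold D
    refine Finset.card_bij (fun a _ => a.1) ?_ ?_ ?_
    · intro a ha
      simp only [mem_filter, mem_univ, true_and, mem_erase] at ha ⊢
      exact ⟨a.2, ha⟩
    · intro a _ c _ h
      exact Subtype.ext h
    · intro a ha
      simp only [mem_filter, mem_univ, true_and, mem_erase] at ha
      exact ⟨⟨a, ha.1⟩, by simpa using ha.2, rfl⟩
  rw [h1]
  split_ifs with h
  · rw [Finset.card_erase_of_mem (by simp [h])]
    rfl
  · rw [Finset.erase_eq_of_notMem (by simp [Ne.symm h])]
    rfl

lemma D_left {X W : Type} [Fintype X] (b : X → W) (i : W) (x : X) (hu : ∀ x', b x' = i → x' = x)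
    (hx : b x = i)
    (b1 : {x' : X // x' ≠ x} → {w : W // w ≠ i}) (hb1 : ∀ x', (b1 x').1 = b x'.1) (w : {w : W // w ≠ i}) :
    D b1 w = D b w.1 := by
  unfold D
  refine Finset.card_bij (fun a _ => a.1) ?_ ?_ ?_
  · intro a ha
    simp only [mem_filter, mem_univ, true_and] at ha ⊢
    rw [← hb1, ha]
  · intro a _ c _ h
    exact Subtype.ext h
  · intro a ha
    simp only [mem_filter, mem_univ, true_and] at ha
    have hax : a ≠ x := by
      rintro rfl
      exact w.2 (by rw [← ha, hx])
    refine ⟨⟨a, hax⟩, ?_, rfl⟩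
    simp only [mem_filter, mem_univ, true_and]
    exact Subtype.ext (by rw [hb1]; exact ha)

lemma sum_key {Y Z : Type} [Fintype Y] [Fintype Z] (b' : Y → Z) :
    ∑ y : Y, ∏ z : Z, D (fun y' : {y' : Y // y' ≠ y} => b' y'.1) z =
      (∏ z : Z, D b' z) * (Fintype.card Y - Fintype.card Z) := by
  have h1 : ∀ y : Y, ∏ z : Z, D (fun y' : {y' : Y // y' ≠ y} => b' y'.1) z =
      (fun z0 => (D b' z0 - 1) * ∏ z ∈ univ.erase z0, D b' z) (b' y) := by
    intro y
    rw [prod_erase_D (fun z => D b' z) _ (b' y) (fun z hz => by rw [D_restrict, if_neg hz])]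
    rw [D_restrict, if_pos rfl]
  rw [Finset.sum_congr rfl fun y _ => h1 y]
  have h2 : ∑ y : Y, (fun z0 => (D b' z0 - 1) * ∏ z ∈ univ.erase z0, D b' z) (b' y) =
      ∑ z0 : Z, D b' z0 * ((D b' z0 - 1) * ∏ z ∈ univ.erase z0, D b' z) := by
    rw [← Finset.sum_fiberwise_of_maps_to (s := univ) (t := univ) (g := b') (fun _ _ => mem_univ _)]
    refine Finset.sum_congr rfl fun z0 _ => ?_
    rw [Finset.sum_congr rfl (g := fun _ => (D b' z0 - 1) * ∏ z ∈ univ.erase z0, D b' z)]
    · rw [Finset.sum_const, smul_eq_mul]; rfl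
    · intro y hy
      simp only [mem_filter, mem_univ, true_and] at hy
      simp only [hy]
  rw [h2]
  have h3 : ∀ z0 : Z, D b' z0 * ((D b' z0 - 1) * ∏ z ∈ univ.erase z0, D b' z) =
      (∏ z : Z, D b' z) * (D b' z0 - 1) := by
    intro z0
    rw [← Finset.mul_prod_erase univ (D b') (mem_univ z0)]
    ring
  rw [Finset.sum_congr rfl fun z0 _ => h3 z0, ← Finset.mul_sum]
  by_cases h0 : ∃ z, D b' z = 0
  · obtain ⟨z, hz⟩ := h0
    rw [Finset.prod_eq_zero (mem_univ z) hz]
    simp
  · push Not at h0
    congr 1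
    have h4 : ∑ z : Z, (D b' z - 1) + Fintype.card Z = Fintype.card Y := by
      rw [← sum_D b', ← Finset.card_univ, Finset.card_eq_sum_ones, ← Finset.sum_add_distrib]
      refine Finset.sum_congr rfl fun z _ => ?_
      have := h0 z
      omega
    omega

/-- the one-sided step -/
lemma step (X Y W Z : Type) [Fintype X] [Fintype Y] [Fintype W] [Fintype Z]
    (b : X → W) (b' : Y → Z) (hXY : Fintype.card X = Fintype.card Y) (hW : 2 ≤ Fintype.card W)
    (hZ : 0 < Fintype.card Z) (hc : Fintype.card X + 1 = Fintype.card W + Fintype.card Z)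
    (i : W) (hi : D b i = 1)
    (IH : ∀ (X Y W' : Type) [Fintype X] [Fintype Y] [Fintype W'],
      Fintype.card W' + 1 = Fintype.card W → TBs X Y W' Z) :
    (univ.filter fun e : X ≃ Y => Cn b b' e).card =
    (∏ w : W, D b w) * (∏ z : Z, D b' z) *
      ((Fintype.card W - 1).factorial * (Fintype.card Z - 1).factorial) := by
  obtain ⟨x, hx⟩ := Finset.card_eq_one.1 hi
  have hxi : b x = i := by
    have : x ∈ univ.filter fun x => b x = i := by rw [hx]; simp
    simpa using this
  have hu : ∀ x', b x' = i → x' = x := by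
    intro x' h
    have : x' ∈ univ.filter fun x => b x = i := by simpa using h
    rw [hx] at this
    simpa using this
  let b1 : {x' : X // x' ≠ x} → {w : W // w ≠ i} := fun x' => ⟨b x'.1, fun h => x'.2 (hu _ h)⟩
  have hb1 : ∀ x', (b1 x').1 = b x'.1 := fun _ => rfl
  have hW' : Fintype.card {w : W // w ≠ i} + 1 = Fintype.card W := by
    rw [Fintype.card_subtype_compl, Fintype.card_subtype_eq]
    omega
  have hcount : ∀ y : Y, ((univ.filter fun e : X ≃ Y => Cn b b' e).filter fun e => e x = y).card =
      (∏ w : W, D b w) * (∏ z : Z, D (fun y' : {y' : Y // y' ≠ y} => b' y'.1) z) *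
      ((Fintype.card W - 2).factorial * (Fintype.card Z - 1).factorial) := by
    intro y
    rw [count_fix b b' i x hxi hu y b1 hb1]
    have hX' : Fintype.card {x' : X // x' ≠ x} = Fintype.card X - 1 := by
      rw [Fintype.card_subtype_compl, Fintype.card_subtype_eq]
    have hY' : Fintype.card {y' : Y // y' ≠ y} = Fintype.card Y - 1 := by
      rw [Fintype.card_subtype_compl, Fintype.card_subtype_eq]
    have hX0 : 0 < Fintype.card X := Fintype.card_pos_iff.2 ⟨x⟩
    have := IH {x' : X // x' ≠ x} {y' : Y // y' ≠ y} {w : W // w ≠ i} hW' b1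
      (fun y' : {y' : Y // y' ≠ y} => b' y'.1) (by rw [hX', hY', hXY]) (by omega) hZ (by omega)
    have hprod : ∏ w : {w : W // w ≠ i}, D b1 w = ∏ w : W, D b w := by
      rw [Finset.prod_congr rfl fun w _ => D_left b i x hu hxi b1 hb1 w]
      rw [← Finset.mul_prod_erase univ (D b) (mem_univ i), hi, one_mul]
      rw [← Finset.prod_subtype (univ.erase i) (p := fun w => w ≠ i) (by simp) (D b)]
    rw [hprod, show Fintype.card {w : W // w ≠ i} - 1 = Fintype.card W - 2 by omega] at this
    refine Eq.trans (congrArg Finset.card ?_) this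
    ext e
    simp
  have hsum : (univ.filter fun e : X ≃ Y => Cn b b' e).card =
      ∑ y : Y, ((univ.filter fun e : X ≃ Y => Cn b b' e).filter fun e => e x = y).card :=
    Finset.card_eq_sum_card_fiberwise (fun _ _ => mem_coe.2 (mem_univ _))
  rw [hsum, Finset.sum_congr rfl fun y _ => hcount y, ← Finset.sum_mul, ← Finset.mul_sum, sum_key]
  have e1 : Fintype.card Y - Fintype.card Z = Fintype.card W - 1 := by omega
  rw [e1]
  obtain ⟨k, hk⟩ : ∃ k, Fintype.card W = k + 2 := ⟨Fintype.card W - 2, by omega⟩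
  rw [hk]
  have e2 : k + 2 - 1 = k + 1 := by omega
  have e3 : k + 2 - 2 = k := by omega
  rw [e2, e3, Nat.factorial_succ]
  ring

theorem main (n : ℕ) : ∀ (X Y W Z : Type) [Fintype X] [Fintype Y] [Fintype W] [Fintype Z],
    Fintype.card W + Fintype.card Z = n → TBs X Y W Z := by
  induction n using Nat.strong_induction_on with
  | _ n IH =>
  intro X Y W Z _ _ _ _ hn b b' hXY hW hZ hc
  obtain ⟨w0⟩ := Fintype.card_pos_iff.1 hW
  obtain ⟨z0⟩ := Fintype.card_pos_iff.1 hZ
  by_cases h1 : ∃ w, D b w = 0
  · obtain ⟨w, hw⟩ := h1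
    rw [Finset.prod_eq_zero (mem_univ w) hw, zero_mul, zero_mul, Finset.card_eq_zero,
      Finset.filter_eq_empty_iff]
    intro e _
    refine not_cn_of_empty b b' e w ?_ z0
    intro x hx
    unfold D at hw
    rw [Finset.card_eq_zero, Finset.filter_eq_empty_iff] at hw
    exact hw (mem_univ x) hx
  by_cases h2 : ∃ z, D b' z = 0
  · obtain ⟨z, hz⟩ := h2
    rw [Finset.prod_eq_zero (mem_univ z) hz, mul_zero, zero_mul, Finset.card_eq_zero,
      Finset.filter_eq_empty_iff]
    intro e _ hcn
    refine not_cn_of_empty b' b e.symm z ?_ w0 (cn_symm _ _ _ hcn)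
    intro x hx
    unfold D at hz
    rw [Finset.card_eq_zero, Finset.filter_eq_empty_iff] at hz
    exact hz (mem_univ x) hx
  push Not at h1 h2
  have s1 := sum_D b
  have s2 := sum_D b'
  by_cases hn2 : n = 2
  · -- base case
    have hW1 : Fintype.card W = 1 := by omega
    have hZ1 : Fintype.card Z = 1 := by omega
    have hX1 : Fintype.card X = 1 := by omega
    have hY1 : Fintype.card Y = 1 := by omega
    obtain ⟨x, hx⟩ := Fintype.card_eq_one_iff.1 hX1
    obtain ⟨y, hy⟩ := Fintype.card_eq_one_iff.1 hY1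
    obtain ⟨w, hw⟩ := Fintype.card_eq_one_iff.1 hW1
    obtain ⟨z, hz⟩ := Fintype.card_eq_one_iff.1 hZ1
    have hcn : ∀ e : X ≃ Y, Cn b b' e := by
      intro e
      have hwz : Relation.EqvGen (rb b b' e) (Sum.inl w) (Sum.inr z) :=
        Relation.EqvGen.rel _ _ ⟨x, by rw [hw (b x)], by rw [hz (b' (e x))]⟩
      have : ∀ p, Relation.EqvGen (rb b b' e) p (Sum.inr z) := by
        rintro (p | p)
        · rw [hw p]; exact hwz
        · rw [hz p]; exact Relation.EqvGen.refl _
      intro p q
      exact Relation.EqvGen.trans _ _ _ (this p) (Relation.EqvGen.symm _ _ (this q))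
    rw [Finset.filter_true_of_mem fun e _ => hcn e, Finset.card_univ,
      Fintype.card_equiv (Fintype.equivOfCardEq hXY), hX1, hW1, hZ1]
    have p1 : ∏ w : W, D b w = 1 := by
      refine Finset.prod_eq_one fun v _ => ?_
      have : ∑ w, D b w = D b v := by
        refine Finset.sum_eq_single v (fun u _ hu => ?_) (by simp)
        exact absurd ((hw u).trans (hw v).symm) hu
      omega
    have p2 : ∏ z : Z, D b' z = 1 := by
      refine Finset.prod_eq_one fun v _ => ?_
      have : ∑ w, D b' w = D b' v := by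
        refine Finset.sum_eq_single v (fun u _ hu => ?_) (by simp)
        exact absurd ((hz u).trans (hz v).symm) hu
      omega
    rw [p1, p2]
    simp
  · -- some block has exactly one point
    have hex : (∃ w, D b w = 1) ∨ ∃ z, D b' z = 1 := by
      by_contra hcon
      push Not at hcon
      have a1 : 2 * Fintype.card W ≤ ∑ w, D b w := by
        have : ∑ _w : W, 2 ≤ ∑ w, D b w := by
          refine Finset.sum_le_sum fun w _ => ?_
          have := h1 w
          have := hcon.1 w
          omega
        simp only [Finset.sum_const, Finset.card_univ, smul_eq_mul] at this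
        omega
      have a2 : 2 * Fintype.card Z ≤ ∑ z, D b' z := by
        have : ∑ _w : Z, 2 ≤ ∑ w, D b' w := by
          refine Finset.sum_le_sum fun w _ => ?_
          have := h2 w
          have := hcon.2 w
          omega
        simp only [Finset.sum_const, Finset.card_univ, smul_eq_mul] at this
        omega
      omega
    rcases hex with ⟨i, hi⟩ | ⟨i, hi⟩
    · have hW2 : 2 ≤ Fintype.card W := by
        by_contra hlt
        have hW1 : Fintype.card W = 1 := by omega
        obtain ⟨w, hw⟩ := Fintype.card_eq_one_iff.1 hW1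
        have : ∑ w, D b w = D b i := by
          refine Finset.sum_eq_single i (fun u _ hu => ?_) (by simp)
          exact absurd ((hw u).trans (hw i).symm) hu
        omega
      exact step X Y W Z b b' hXY hW2 hZ hc i hi (fun X Y W' _ _ _ hW' =>
        IH (Fintype.card W' + Fintype.card Z) (by omega) X Y W' Z rfl)
    · have hZ2 : 2 ≤ Fintype.card Z := by
        by_contra hlt
        have hZ1 : Fintype.card Z = 1 := by omega
        obtain ⟨w, hw⟩ := Fintype.card_eq_one_iff.1 hZ1
        have : ∑ w, D b' w = D b' i := by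
          refine Finset.sum_eq_single i (fun u _ hu => ?_) (by simp)
          exact absurd ((hw u).trans (hw i).symm) hu
        omega
      rw [count_symm b b', step Y X Z W b' b hXY.symm hZ2 hW (by omega) i hi (fun X Y W' _ _ _ hW' =>
        IH (Fintype.card W' + Fintype.card W) (by omega) X Y W' W rfl)]
      ring

end TBX

theorem p_TB : S_TB := by
  intro X Y W Z _ _ _ _ b b' hXY hW hZ hc
  have h := TBX.main _ X Y W Z rfl b b' hXY hW hZ hc
  have hne : Nonempty W := Fintype.card_pos_iff.1 hW
  rw [Finset.filter_congr (fun e _ => TBX.card_iff b b' e hne)]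
  exact h

end Pool.Agent.ALM
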