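import Pool.Agent.Lib.MP_fc2a59_co.ALM.T.Stm

set_option autoImplicit false

/-! # Piece T inv: invariance of the block structures -/

namespace Pool.Agent.ALM

open Finset
open scoped Classical

private lemma inv_for {X W X' W' : Type} [Fintype X] [Fintype W] [Fintype X'] [Fintype W']
    {b : X → W} {b' : X' → W'} {ρ : X → X} {ρ' : X' → X'} (h1 : Inv ρ ↔ Inv ρ')
    (h2 : mv ρ = mv ρ') (h3 : nc b ρ = nc b' ρ') (h4 : Fintype.card W = Fintype.card W') :
    (For b ρ ↔ For b' ρ') ∧ (Tre b ρ ↔ Tre b' ρ') := by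
  unfold For Tre
  rw [h1, h2, h3, h4]
  exact ⟨Iff.rfl, Iff.rfl⟩

/-- **inv** -/
theorem p_inv : S_inv := by
  intro X W X' W' _ _ _ _ b b' ρ ρ' e f hb hρ
  have h1 : Inv ρ ↔ Inv ρ' := by
    unfold Inv
    constructor
    · intro h x'
      obtain ⟨x, rfl⟩ := e.surjective x'
      rw [hρ, hρ, h]
    · intro h x
      apply e.injective
      rw [← hρ, ← hρ, h]
  have h2 : mv ρ = mv ρ' := by
    unfold mv
    refine Finset.card_bij (fun x _ => e x) ?_ ?_ ?_
    · intro x hx
      rw [mem_filter] at hx ⊢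
      refine ⟨mem_univ _, ?_⟩
      rw [hρ]
      exact fun h => hx.2 (e.injective h)
    · intro x _ y _ h
      exact e.injective h
    · intro x' hx'
      obtain ⟨x, rfl⟩ := e.surjective x'
      rw [mem_filter, hρ] at hx'
      refine ⟨x, ?_, rfl⟩
      rw [mem_filter]
      exact ⟨mem_univ _, fun h => hx'.2 (by rw [h])⟩
  have h3 : nc b ρ = nc b' ρ' := by
    unfold nc
    refine Nat.card_congr (Quot.congr f ?_)
    intro u v
    unfold lk
    constructor
    · rintro ⟨x, hu, hv⟩
      refine ⟨e x, by rw [hb, hu], ?_⟩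
      rw [hρ, hb, hv]
    · rintro ⟨x', hu, hv⟩
      obtain ⟨x, rfl⟩ := e.surjective x'
      refine ⟨x, ?_, ?_⟩
      · rw [hb] at hu
        exact f.injective hu
      · rw [hρ, hb] at hv
        exact f.injective hv
  have h4 := inv_for (b := b) (b' := b') h1 h2 h3 (Fintype.card_congr f)
  exact ⟨h1, h2, h3, h4.1, h4.2⟩

/-- **rem** -/
theorem p_rem : S_rem := by
  intro X W X' _ _ _ b ρ ρ' e he hfix hρ
  have h1 : Inv ρ ↔ Inv ρ' := by
    unfold Inv
    constructor
    · intro h x'
      apply he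
      rw [← hρ, ← hρ, h]
    · intro h x
      by_cases hx : ∃ x', e x' = x
      · obtain ⟨x', rfl⟩ := hx
        rw [hρ, hρ, h]
      · have h5 := hfix x (fun x' hx' => hx ⟨x', hx'⟩)
        rw [h5, h5]
  have h2 : mv ρ = mv ρ' := by
    unfold mv
    symm
    refine Finset.card_bij (fun x _ => e x) ?_ ?_ ?_
    · intro x hx
      rw [mem_filter] at hx ⊢
      refine ⟨mem_univ _, ?_⟩
      rw [hρ]
      exact fun h => hx.2 (he h)
    · intro x _ y _ h
      exact he h
    · intro x hx
      rw [mem_filter] at hx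
      by_cases hx2 : ∃ x', e x' = x
      · obtain ⟨x', rfl⟩ := hx2
        rw [hρ] at hx
        refine ⟨x', ?_, rfl⟩
        rw [mem_filter]
        exact ⟨mem_univ _, fun h => hx.2 (by rw [h])⟩
      · exact absurd (hfix x (fun x' hx' => hx2 ⟨x', hx'⟩)) hx.2
  have h3 : nc b ρ = nc (fun x' => b (e x')) ρ' := by
    unfold nc
    refine Nat.card_congr
      { toFun := Quot.lift (fun w => Quot.mk _ w) ?_
        invFun := Quot.lift (fun w => Quot.mk _ w) ?_
        left_inv := ?_
        right_inv := ?_ }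
    · rintro u v ⟨x, hu, hv⟩
      by_cases hx : ∃ x', e x' = x
      · obtain ⟨x', rfl⟩ := hx
        refine Quot.sound ⟨x', hu, ?_⟩
        rw [hρ] at hv
        exact hv
      · have h5 := hfix x (fun x' hx' => hx ⟨x', hx'⟩)
        rw [h5] at hv
        rw [← hu, ← hv]
    · rintro u v ⟨x', hu, hv⟩
      refine Quot.sound ⟨e x', hu, ?_⟩
      rw [hρ]
      exact hv
    · rintro ⟨w⟩
      rfl
    · rintro ⟨w⟩
      rfl
  have h4 := inv_for (b := b) (b' := fun x' => b (e x')) h1 h2 h3 rfl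
  exact ⟨h1, h2, h3, h4.1, h4.2⟩

end Pool.Agent.ALM
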