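import Pool.Agent.Lib.MP_fc2a59_co.ALM.T.Stm

set_option autoImplicit false

namespace Pool.Agent.ALM

open Finset
open scoped Classical

/-- adding one identification of `p` and `q` lowers the number of classes by at most one -/
private lemma ncleX_card {W : Type} [Finite W] (r r' : W → W → Prop) (p q : W)
    (h : ∀ u v, r' u v → (u = p ∧ v = q) ∨ (u = q ∧ v = p) ∨ r u v) :
    Nat.card (Quot r) ≤ Nat.card (Quot r') + 1 := by
  let g : W → Quot r := fun u => if Quot.mk r u = Quot.mk r q then Quot.mk r p else Quot.mk r u
  have hgp : g p = Quot.mk r p := by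
    simp only [g]; split_ifs <;> rfl
  have hgq : g q = Quot.mk r p := by
    simp [g]
  have hg : ∀ u v, r' u v → g u = g v := by
    intro u v huv
    rcases h u v huv with ⟨h1, h2⟩ | ⟨h1, h2⟩ | h1
    · rw [h1, h2, hgp, hgq]
    · rw [h1, h2, hgp, hgq]
    · have : Quot.mk r u = Quot.mk r v := Quot.sound h1
      simp only [g]; rw [this]
  let F : Option (Quot r') → Quot r := fun o => o.elim (Quot.mk r q) (Quot.lift g hg)
  have hF : Function.Surjective F := by
    intro c
    induction c using Quot.ind with
    | mk u =>
      by_cases hu : Quot.mk r u = Quot.mk r q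
      · exact ⟨none, hu.symm⟩
      · refine ⟨some (Quot.mk r' u), ?_⟩
        change g u = _
        simp only [g]; rw [if_neg hu]
  have := Nat.card_le_card_of_surjective F hF
  rwa [Finite.card_option] at this

private lemma ncleX_aux {X W : Type} [Fintype X] [Fintype W] (b : X → W) :
    ∀ (n : ℕ) (ρ : X → X), Inv ρ → mv ρ = n → 2 * Fintype.card W ≤ mv ρ + 2 * nc b ρ := by
  intro n
  induction n using Nat.strong_induction_on with
  | _ n ih =>
    intro ρ hρ hn
    by_cases h0 : ∀ x, ρ x = x
    · -- no pairs
      have hs : Function.Surjective (Quot.lift (fun u : W => u)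
          (by
            rintro u v ⟨x, h1, h2⟩
            rw [h0 x] at h2
            exact h1.symm.trans h2) : Quot (lk b ρ) → W) := fun u => ⟨Quot.mk _ u, rfl⟩
      have h1 : Nat.card W ≤ Nat.card (Quot (lk b ρ)) := Nat.card_le_card_of_surjective _ hs
      rw [Nat.card_eq_fintype_card] at h1
      have : Nat.card (Quot (lk b ρ)) = nc b ρ := rfl
      omega
    · push Not at h0
      obtain ⟨x, hx⟩ := h0
      set y := ρ x with hy
      have hyx : ρ y = x := hρ x
      let ρ' : X → X := fun z => if z = x ∨ z = y then z else ρ z
      have hρx : ρ' x = x := by simp [ρ']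
      have hρy : ρ' y = y := by simp [ρ']
      have hρz : ∀ z, z ≠ x → z ≠ y → ρ' z = ρ z := by
        intro z h1 h2
        simp only [ρ']; rw [if_neg]; push Not; exact ⟨h1, h2⟩
      have hz1 : ∀ z, z ≠ x → z ≠ y → ρ z ≠ x ∧ ρ z ≠ y := by
        intro z h1 h2
        constructor
        · intro h
          apply h2
          have := hρ z
          rw [h] at this
          exact this.symm
        · intro h
          apply h1
          have := hρ z
          rw [h, hyx] at this
          exact this.symm
      have hInv : Inv ρ' := by
        intro z
        by_cases h1 : z = x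
        · rw [h1, hρx, hρx]
        · by_cases h2 : z = y
          · rw [h2, hρy, hρy]
          · rw [hρz z h1 h2, hρz _ (hz1 z h1 h2).1 (hz1 z h1 h2).2, hρ z]
      have hset : (univ.filter fun z => ρ z ≠ z) =
          insert x (insert y (univ.filter fun z => ρ' z ≠ z)) := by
        ext z
        simp only [Finset.mem_filter, Finset.mem_univ, true_and, Finset.mem_insert]
        by_cases h1 : z = x
        · subst h1
          simp only [true_or, iff_true]
          exact hx
        · by_cases h2 : z = y
          · rw [h2]
            simp only [true_or, or_true, iff_true]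
            rw [hyx]
            exact fun h => hx h.symm
          · rw [hρz z h1 h2]
            simp [h1, h2]
      have hxn : x ∉ insert y (univ.filter fun z => ρ' z ≠ z) := by
        simp only [Finset.mem_filter, Finset.mem_univ, true_and, Finset.mem_insert, not_or]
        exact ⟨fun h => hx h.symm, fun h => h hρx⟩
      have hyn : y ∉ (univ.filter fun z => ρ' z ≠ z) := by
        simp only [Finset.mem_filter, Finset.mem_univ, true_and]
        exact fun h => h hρy
      have hmv : mv ρ = mv ρ' + 2 := by
        unfold mv
        rw [hset, Finset.card_insert_of_notMem hxn, Finset.card_insert_of_notMem hyn]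
      have hnc : nc b ρ' ≤ nc b ρ + 1 := by
        unfold nc
        apply ncleX_card (lk b ρ') (lk b ρ) (b x) (b y)
        rintro u v ⟨z, h1, h2⟩
        by_cases hzx : z = x
        · left
          rw [hzx] at h1 h2
          exact ⟨h1.symm, h2.symm⟩
        · by_cases hzy : z = y
          · right; left
            rw [hzy] at h1 h2
            rw [hyx] at h2
            exact ⟨h1.symm, h2.symm⟩
          · right; right
            exact ⟨z, h1, by rw [hρz z hzx hzy]; exact h2⟩
      have := ih (mv ρ') (by omega) ρ' hInv rfl
      omega

theorem p_ncle : S_ncle := by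
  intro X W _ _ b ρ hρ
  exact ncleX_aux b (mv ρ) ρ hρ rfl

end Pool.Agent.ALM
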