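import Pool.Agent.Lib.MP_fc2a59_co.ALM.T.Stm

set_option autoImplicit false

/-!
# Project ALM, piece T pr: number of pairings, number of pairings containing a partial pairing
-/

namespace Pool.Agent.ALM

open Finset
open scoped Classical

namespace prX

theorem mem_prs {X : Type} [Fintype X] {σ : X → X} : σ ∈ prs X ↔ IsPr σ := by
  simp [prs]

/-- a pairing which contains `F` preserves the free points of `F` -/
theorem fix {X : Type} {F σ : X → X} (hF : Inv F) (hσ : IsPr σ) (hs : Sub F σ) {z : X}
    (hz : F z = z) : F (σ z) = σ z := by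
  by_contra h
  have h1 := hs _ h
  rw [(hσ z).1] at h1
  have h2 : F z = σ z := by
    conv_lhs => rw [h1]
    exact hF _
  exact (hσ z).2 (by rw [← h2, hz])

/-- extension of a pairing of the free points -/
noncomputable def exd {X : Type} (F : X → X) (τ : Fx F → Fx F) (z : X) : X :=
  if h : F z = z then (τ ⟨z, h⟩).1 else F z

theorem exd_fix {X : Type} {F : X → X} (τ : Fx F → Fx F) (z : Fx F) :
    exd F τ z.1 = (τ z).1 := by
  rw [exd, dif_pos z.2]

theorem exd_mv {X : Type} {F : X → X} (τ : Fx F → Fx F) {z : X} (hz : F z ≠ z) :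
    exd F τ z = F z := by
  rw [exd, dif_neg hz]

theorem exd_pr {X : Type} {F : X → X} (hF : Inv F) {τ : Fx F → Fx F} (hτ : IsPr τ) :
    IsPr (exd F τ) := by
  intro z
  by_cases hz : F z = z
  · have h1 := exd_fix τ ⟨z, hz⟩
    have h2 := exd_fix τ (τ ⟨z, hz⟩)
    constructor
    · rw [h1, h2, (hτ ⟨z, hz⟩).1]
    · intro h
      apply (hτ ⟨z, hz⟩).2
      apply Subtype.ext
      rw [← h1]
      exact h
  · have hz' : F (F z) ≠ F z := by
      rw [hF z]
      exact fun h => hz h.symm
    constructor
    · rw [exd_mv τ hz, exd_mv τ hz', hF z]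
    · rw [exd_mv τ hz]
      exact hz

theorem exd_sub {X : Type} {F : X → X} (τ : Fx F → Fx F) : Sub F (exd F τ) :=
  fun _ hz => exd_mv τ hz

theorem card_sub {X : Type} [Fintype X] {F : X → X} (hF : Inv F) :
    ((prs X).filter fun σ => Sub F σ).card = (prs (Fx F)).card := by
  symm
  refine card_bij (fun τ _ => exd F τ) ?_ ?_ ?_
  · intro τ hτ
    rw [mem_filter, mem_prs]
    exact ⟨exd_pr hF (mem_prs.1 hτ), exd_sub τ⟩
  · intro τ _ τ' _ h
    funext z
    apply Subtype.ext
    rw [← exd_fix τ z, ← exd_fix τ' z]
    exact congrFun h z.1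
  · intro σ hσ
    rw [mem_filter, mem_prs] at hσ
    obtain ⟨hσ, hs⟩ := hσ
    refine ⟨fun z => ⟨σ z.1, fix hF hσ hs z.2⟩, ?_, ?_⟩
    · rw [mem_prs]
      intro z
      exact ⟨Subtype.ext (hσ z.1).1, fun h => (hσ z.1).2 (congrArg Subtype.val h)⟩
    · funext z
      by_cases hz : F z = z
      · exact exd_fix _ ⟨z, hz⟩
      · rw [exd_mv _ hz]
        exact (hs z hz).symm

theorem card_Fx {X : Type} [Fintype X] (F : X → X) : Fintype.card (Fx F) + mv F = Fintype.card X := by
  rw [Fintype.card_subtype, mv, card_filter_add_card_filter_not, card_univ]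

theorem swap_inv {X : Type} (x y : X) : Inv (Equiv.swap x y) := fun z => Equiv.swap_apply_self x y z

theorem mv_swap {X : Type} [Fintype X] {x y : X} (h : x ≠ y) :
    mv (Equiv.swap x y : X → X) = 2 := by
  have h1 : (univ.filter fun z => (Equiv.swap x y : X → X) z ≠ z) = {x, y} := by
    ext z
    simp only [mem_filter, mem_univ, true_and, mem_insert, mem_singleton]
    constructor
    · intro hz
      by_contra hcon
      push Not at hcon
      exact hz (Equiv.swap_apply_of_ne_of_ne hcon.1 hcon.2)
    · rintro (rfl | rfl)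
      · rw [Equiv.swap_apply_left]
        exact h.symm
      · rw [Equiv.swap_apply_right]
        exact h
  rw [mv, h1, card_pair h]

theorem sub_swap {X : Type} {x y : X} (h : x ≠ y) {σ : X → X} (hσ : IsPr σ) :
    Sub (Equiv.swap x y : X → X) σ ↔ σ x = y := by
  constructor
  · intro hs
    have := hs x (by rw [Equiv.swap_apply_left]; exact h.symm)
    rwa [Equiv.swap_apply_left] at this
  · intro hxy z hz
    by_cases h1 : z = x
    · subst h1
      rw [Equiv.swap_apply_left]
      exact hxy
    · by_cases h2 : z = y
      · subst h2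
        rw [Equiv.swap_apply_right, ← hxy]
        exact (hσ x).1
      · exact absurd (Equiv.swap_apply_of_ne_of_ne h1 h2) hz

end prX

open prX

theorem p_pr : S_pr := by
  intro X _ k
  induction k generalizing X with
  | zero =>
    intro hX
    have hX0 : Fintype.card X = 0 := by omega
    have hE : IsEmpty X := Fintype.card_eq_zero_iff.1 hX0
    have h1 : prs X = univ := by
      ext σ
      rw [mem_prs]
      simp only [mem_univ, iff_true]
      intro z
      exact hE.elim z
    rw [h1, card_univ]
    have h2 : Unique (X → X) := Pi.uniqueOfIsEmpty _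
    rw [Fintype.card_unique]
    simp [II]
  | succ k ih =>
    intro hX
    have hpos : 0 < Fintype.card X := by omega
    obtain ⟨x⟩ := Fintype.card_pos_iff.1 hpos
    have h1 : (prs X).card = ∑ y ∈ univ.erase x, ((prs X).filter fun σ => σ x = y).card := by
      apply card_eq_sum_card_fiberwise (f := fun σ : X → X => σ x)
      intro σ hσ
      have hσ' := mem_prs.1 (mem_coe.1 hσ)
      simp only [coe_erase, coe_univ, Set.mem_diff, Set.mem_univ, Set.mem_singleton_iff, true_and]
      exact (hσ' x).2
    have h2 : ∀ y ∈ univ.erase x, ((prs X).filter fun σ => σ x = y).card = II k := by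
      intro y hy
      have hxy : x ≠ y := by
        rw [mem_erase] at hy
        exact hy.1.symm
      have h3 : ((prs X).filter fun σ => σ x = y) =
          (prs X).filter fun σ => Sub (Equiv.swap x y : X → X) σ := by
        ext σ
        rw [mem_filter, mem_filter]
        constructor
        · rintro ⟨h4, h5⟩
          exact ⟨h4, (sub_swap hxy (mem_prs.1 h4)).2 h5⟩
        · rintro ⟨h4, h5⟩
          exact ⟨h4, (sub_swap hxy (mem_prs.1 h4)).1 h5⟩
      rw [h3, card_sub (swap_inv x y)]
      apply ih
      have h6 := card_Fx (Equiv.swap x y : X → X)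
      rw [mv_swap hxy] at h6
      omega
    rw [h1, sum_congr rfl h2, sum_const, card_erase_of_mem (mem_univ _), card_univ, hX, smul_eq_mul,
      II, II, prod_range_succ, mul_comm]
    congr 1

theorem p_prF : S_prF := by
  intro X _ k f F hX hF hm
  rw [card_sub hF]
  apply p_pr
  have h := card_Fx F
  omega

end Pool.Agent.ALM
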