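import Pool.Agent.Lib.MP_fc2a59_co.ALM.Defs

set_option autoImplicit false

/-!
# Project ALM, section T: toolbox on block structures, tree counts, first moment

Conventions.  Points `X`, blocks `W`, block map `b : X → W`, involution `ρ : X → X` (partial pairing, the
fixed points are free).  `mv ρ` is twice the number of pairs, `nc b ρ` the number of components of the
blocks under `lk b ρ`, which is a `Quot` (so `Quot.ind`, `Quot.lift`, `Quot.eqvGen_exact`/`Quot.sound`).
Pieces: p_T, p_TB, p_ncle, p_2ST, p_inv (S_inv and S_rem), p_DEC, p_pr (S_pr and S_prF), p_L3, p_Jc, p_N1.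
-/

namespace Pool.Agent.ALM

open Finset
open scoped Classical

/-- NUMBER OF SPANNING TREES ON BLOCKS.

Notation: `S = |X|`, `N = |W|`, `D w = #{x | b x = w}`.  Claim: the number of involutions forming a spanning
tree is `∏ D w * (S - N)! / (S - 2N + 2)!`, and `0` if `S + 2 < 2N` (a tree moves `2N - 2 ≤ S` points).

Proof.  Induction on `S` (all `W`, `b`).  Case `N = 1`: `Tre b ρ` iff `ρ = id` (`mv ρ = 0`), and
`D = S`, `S * (S-1)! = S!`, and `(S + 2 - 2)! = S!`, count 1.  Let `N ≥ 2`.  If some block is empty then no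
`ρ` is connected (`nc b ρ = 1` forces every block to be linked to another one) and both sides are 0.
Otherwise choose a point `x`, block `i`, `D i = d`.  Split the trees `ρ` by `y = ρ x`.
(1) `y = x` (free): `ρ` restricted to `X' = {z // z ≠ x}` is a tree for `b` restricted, and conversely.
(2) `y ≠ x`: if `b y = i` then `ρ` is not a tree (removing the pair `{x,y}` does not change the components,
`mv` drops by 2, contradiction with `2N ≤ mv + 2 nc`, i.e. `S_ncle`-type inequality; you may assume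
`S_ncle` as hypothesis).  If `b y = j ≠ i`: let `X'' = {z // z ≠ x, z ≠ y}`, `W'' = {w // w ≠ j}`,
`b'' z = i` if `b z = j` and `b'' z = b z` otherwise.  `ρ ↦ ρ|X''` is a bijection from the trees with
`ρ x = y` to the trees for `b''` (`|W''| = N - 1`, `mv` drops by 2, components correspond because the pair
`{x,y}` links `i` and `j`).
So with `P(b)` the number of trees, `P(b) = P(b|X') + ∑_{y : b y ≠ i} P(b''_y)`.  Let `Π = ∏_{w ≠ i} D w`.
By induction (all numbers of blocks `≤ N`, so the formula applies; treat the cases where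
`S + 2 < 2N`, `S + 1 < 2N` separately, there the corresponding terms are 0):
`P(b|X') (S+1-2N)! = (d-1) Π (S-1-N)!`, `P(b''_y) (S-2N+2)! = (d + D j - 2) (Π / D j) (S-1-N)!`, and there are
`D j` points `y` in block `j`, so `∑_y P(b''_y) (S-2N+2)! = Π (S-1-N)! ∑_{j ≠ i} (d + D j - 2)
= Π (S-1-N)! ((N-1)(d-2) + S - d)`.  Multiply the first by `S - 2N + 2`:
`P(b) (S-2N+2)! = Π (S-1-N)! [(d-1)(S-2N+2) + (N-1)(d-2) + S - d] = Π (S-1-N)! d (S-N)`, as claimed.
(If `S + 2 = 2N` the first term is 0 on both sides.)  It is convenient to prove the formula in `ℚ` or `ℤ`.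
For `N ≥ 2` with all blocks nonempty, `S ≥ N`; if `S = N` then `S + 2 ≥ 2N` gives `N ≤ 2`. -/
def S_T : Prop := ∀ (X W : Type) [Fintype X] [Fintype W] (b : X → W),
  0 < Fintype.card X → 0 < Fintype.card W →
  (Fintype.card X + 2 < 2 * Fintype.card W → (univ.filter fun ρ : X → X => Tre b ρ).card = 0) ∧
  (2 * Fintype.card W ≤ Fintype.card X + 2 →
    (univ.filter fun ρ : X → X => Tre b ρ).card *
        (Fintype.card X + 2 - 2 * Fintype.card W).factorial =
      (∏ w : W, (univ.filter fun x => b x = w).card) *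
        (Fintype.card X - Fintype.card W).factorial)

/-- relation on `W ⊕ Z` given by a map between the points -/
def rb {X Y W Z : Type} (b : X → W) (b' : Y → Z) (e : X → Y) (p q : W ⊕ Z) : Prop :=
  ∃ x, p = Sum.inl (b x) ∧ q = Sum.inr (b' (e x))

/-- NUMBER OF BIJECTIONS FORMING A BIPARTITE SPANNING TREE.

Points `X → W`, `Y → Z`, `|X| = |Y| = |W| + |Z| - 1`; the number of bijections `e : X ≃ Y` for which the
bipartite graph on `W ⊕ Z` with edges `b x -- b' (e x)` is connected (then it is a tree) is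
`∏ |b^{-1} w| ∏ |b'^{-1} z| (|W|-1)! (|Z|-1)!`.

Proof.  Induction on `|W| + |Z|`.  If `|W| = |Z| = 1` then `|X| = |Y| = 1`, everything is 1.  Let
`|W| + |Z| ≥ 3`.  If some block (on either side) is empty, the graph is not connected and both sides are 0.
The sum of the sizes of all blocks is `2(|W|+|Z|-1) < 2(|W|+|Z|)`, so some block has exactly one point.  By the
symmetry `e ↦ e.symm` we may assume it is `i : W` with unique point `x` (state the induction so that this is
allowed, e.g. prove the one-sided step as a lemma and apply it twice).  Then `|W| ≥ 2` (if `|W| = 1` then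
`|X| = 1 = |Z|`).  For `y : Y`, block `j`, the bijections with `e x = y` correspond to bijections
`e' : {x' // x' ≠ x} ≃ {y' // y' ≠ y}`, and the graph of `e` is connected iff the graph of `e'` on
`{w // w ≠ i} ⊕ Z` is (`i` is a leaf).  By induction their number is
`∏_{w ≠ i} |b^{-1}w| * ∏_{z ≠ j} |b'^{-1}z| * (|b'^{-1}j| - 1) * (|W|-2)! (|Z|-1)!`.  Sum over `y`:
`∑_j |b'^{-1}j| (|b'^{-1}j| - 1) ∏_{z ≠ j} |b'^{-1} z| = ∏_z |b'^{-1}z| ∑_j (|b'^{-1}j| - 1) =
∏_z |b'^{-1}z| (|Y| - |Z|) = ∏_z |b'^{-1}z| (|W| - 1)`. -/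
def S_TB : Prop := ∀ (X Y W Z : Type) [Fintype X] [Fintype Y] [Fintype W] [Fintype Z]
  (b : X → W) (b' : Y → Z), Fintype.card X = Fintype.card Y →
  0 < Fintype.card W → 0 < Fintype.card Z → Fintype.card X + 1 = Fintype.card W + Fintype.card Z →
  (univ.filter fun e : X ≃ Y => Nat.card (Quot (rb b b' e)) = 1).card =
    (∏ w : W, (univ.filter fun x => b x = w).card) * (∏ z : Z, (univ.filter fun y => b' y = z).card) *
      ((Fintype.card W - 1).factorial * (Fintype.card Z - 1).factorial)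

/-- Number of components `≥` number of blocks minus number of pairs.

Proof.  Induction on `mv ρ`.  If `mv ρ = 0` then `ρ = id`, `lk b ρ u v` only for `u = v` and `nc = |W|`.
Otherwise let `ρ x = y ≠ x`, and let `ρ'` be `ρ` with `x, y` made fixed.  `mv ρ = mv ρ' + 2`, and
`nc b ρ' ≤ nc b ρ + 1`: adding one pair merges at most two components.  (For the last point: the map
`Cm b ρ' → Cm b ρ` is surjective and two classes with the same image are equal or are the classes of
`b x` and `b y`; so it is injective outside the class of `b y`.)  Alternatively use the general fact on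
`SimpleGraph`: a connected graph on `n` vertices has at least `n - 1` edges. -/
def S_ncle : Prop := ∀ (X W : Type) [Fintype X] [Fintype W] (b : X → W) (ρ : X → X), Inv ρ →
  2 * Fintype.card W ≤ mv ρ + 2 * nc b ρ

/-- the part of `ρ` outside the sub-involution `ρ0` -/
noncomputable def rt {X : Type} (ρ0 ρ : X → X) (z : Fx ρ0) : Fx ρ0 :=
  if h : ρ0 (ρ z.1) = ρ z.1 then ⟨ρ z.1, h⟩ else z

/-- TWO STAGES.  `ρ0` is a sub-involution of `ρ`; first contract the components of `ρ0`.

Proof.  If `ρ0 z = z` then `ρ0 (ρ z) = ρ z`: otherwise `ρ (ρ z) = ρ0 (ρ z)` by `Sub`, so `z = ρ0 (ρ z)`,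
`ρ0 z = ρ z`, so `ρ z = z` and `ρ0 (ρ z) = ρ0 z = z = ρ z`, contradiction.  This gives the first two claims
(`rt ρ0 ρ z = ρ z`).  `mv`: a moved point of `ρ` is either moved by `ρ0` (and then also by `ρ`) or is a fixed
point of `ρ0`, i.e. an element of `Fx ρ0` moved by `rt ρ0 ρ`.
Components: `Cm b ρ ≃ Cm (qm b ρ0) (rt ρ0 ρ)`, the map sends the class of `u` to the class of the class of
`u`: well defined, since for a pair `x, ρ x` either `x` is moved by `ρ0`, then `b x` and `b (ρ x) = b (ρ0 x)`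
are in the same class of `Cm b ρ0`, or `x ∈ Fx ρ0` and the two classes are linked by `rt ρ0 ρ`; the inverse
sends the class of the class of `u` to the class of `u` (`Quot.lift` twice; a link of `ρ0` is a link of `ρ`:
if `ρ0 x ≠ x` then `ρ x = ρ0 x`, and if `ρ0 x = x` nothing is to show).
Last claim: write `e = mv ρ0 + 2 nc b ρ0 - 2|W| ≥ 0` (`S_ncle`), and if `nc (qm b ρ0) (rt ρ0 ρ) = 1` then
`e' = mv (rt ρ0 ρ) + 2 - 2 |Cm b ρ0| ≥ 0` (`S_ncle` for the second stage, `|Cm b ρ0| = nc b ρ0` by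
`Nat.card_eq_fintype_card`).  `mv ρ + 2 - 2|W| = e + e'`, so it vanishes iff `e = 0` and `e' = 0`. -/
def S_2ST : Prop := ∀ (X W : Type) [Fintype X] [Fintype W] (b : X → W) (ρ0 ρ : X → X),
  Inv ρ0 → Inv ρ → Sub ρ0 ρ →
  Inv (rt ρ0 ρ) ∧ (∀ z : Fx ρ0, (rt ρ0 ρ z).1 = ρ z.1) ∧
  nc b ρ = nc (qm b ρ0) (rt ρ0 ρ) ∧ mv ρ = mv ρ0 + mv (rt ρ0 ρ) ∧
  (Tre b ρ ↔ For b ρ0 ∧ Tre (qm b ρ0) (rt ρ0 ρ))

/-- INVARIANCE under bijections of points and blocks.  Proof: transport; the moved points correspond under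
`e`, and `Cm b ρ ≃ Cm b' ρ'` by `Quot.congr`. -/
def S_inv : Prop := ∀ (X W X' W' : Type) [Fintype X] [Fintype W] [Fintype X'] [Fintype W']
  (b : X → W) (b' : X' → W') (ρ : X → X) (ρ' : X' → X') (e : X ≃ X') (f : W ≃ W'),
  (∀ x, b' (e x) = f (b x)) → (∀ x, ρ' (e x) = e (ρ x)) →
  (Inv ρ ↔ Inv ρ') ∧ mv ρ = mv ρ' ∧ nc b ρ = nc b' ρ' ∧ (For b ρ ↔ For b' ρ') ∧ (Tre b ρ ↔ Tre b' ρ')

/-- Removing fixed points does not matter.  `X'` injects into `X` by `e`, the points of `X` outside the
image are fixed by `ρ`.  Proof: `e` gives a bijection of the moved points; the relations `lk` on `W` differ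
only by loops `u ~ u`, so the quotients are the same (`Quot.map`/equality of generated equivalences). -/
def S_rem : Prop := ∀ (X W X' : Type) [Fintype X] [Fintype W] [Fintype X']
  (b : X → W) (ρ : X → X) (ρ' : X' → X') (e : X' → X), Function.Injective e →
  (∀ x, (∀ x', e x' ≠ x) → ρ x = x) → (∀ x', ρ (e x') = e (ρ' x')) →
  (Inv ρ ↔ Inv ρ') ∧ mv ρ = mv ρ' ∧ nc b ρ = nc (fun x' => b (e x')) ρ' ∧
    (For b ρ ↔ For (fun x' => b (e x')) ρ') ∧ (Tre b ρ ↔ Tre (fun x' => b (e x')) ρ')

/-- DECOMPOSITION OF PAIRINGS along a partition of the points into two parts `P`, `Q = ¬ P`.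

Proof.  A pairing `σ` of `Z` corresponds bijectively to triples `(ρ1, ρ2, e)` with involutions
`ρ1 = rs P σ`, `ρ2 = rs Q σ` and a bijection `e : Fx ρ1 ≃ Fx ρ2`: a point `z` of `P` is fixed by `rs P σ` iff
`σ z` is not in `P` (as `σ z ≠ z`), and then `e z = σ z`, which is fixed by `rs Q σ` because `σ (σ z) = z`
is in `P`.  Conversely the pairing is `σ z = ρ1 z` if `ρ1 z ≠ z`, `σ z = e z` if `ρ1 z = z` (for `z` in `P`),
and in the same way on `Q` with `e.symm`.  The number of bijections `Fx ρ1 ≃ Fx ρ2` is `|Fx ρ1|!` if the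
cardinalities agree (`Fintype.card_equiv`) and `0` otherwise.  (Fibre counting: `card_eq_sum_card_fiberwise`
over the pair `(rs P σ, rs Q σ)`.) -/
def S_DEC : Prop := ∀ (Z : Type) [Fintype Z] (P Q : Z → Prop), (∀ z, Q z ↔ ¬ P z) →
  ∀ (Q1 : ({z // P z} → {z // P z}) → Prop) (Q2 : ({z // Q z} → {z // Q z}) → Prop),
  ((prs Z).filter fun σ => Q1 (rs P σ) ∧ Q2 (rs Q σ)).card =
    ∑ ρ1 ∈ univ.filter (fun ρ : {z // P z} → {z // P z} => Inv ρ ∧ Q1 ρ),
      ∑ ρ2 ∈ univ.filter (fun ρ : {z // Q z} → {z // Q z} => Inv ρ ∧ Q2 ρ),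
        if Fintype.card (Fx ρ1) = Fintype.card (Fx ρ2) then (Fintype.card (Fx ρ1)).factorial else 0

/-- `(2k-1)!!` pairings.  Proof: induction on `k`, choose the partner of one point (`2k-1` choices), the rest
is a pairing of the other `2k-2` points.  (Compare Lib/MP_fce888_co/GE/P_Conf.lean, `card_ffi_le`.) -/
def S_pr : Prop := ∀ (X : Type) [Fintype X] (k : ℕ), Fintype.card X = 2 * k → (prs X).card = II k

/-- Pairings containing a partial pairing with `f` pairs: bijection with the pairings of the `2(k-f)` free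
points (restrict `σ` to `Fx F`; `σ` maps `Fx F` to itself by the argument of `S_2ST`). -/
def S_prF : Prop := ∀ (X : Type) [Fintype X] (k f : ℕ) (F : X → X), Fintype.card X = 2 * k →
  Inv F → mv F = 2 * f → ((prs X).filter fun σ => Sub F σ).card = II (k - f)

/-- twice the number of pairs of `F` inside `A` -/
noncomputable def fI {V : Type} [Fintype V] (F : Pt V → Pt V) (A : Finset V) : ℕ :=
  mv (rs (fun x : Pt V => x.1 ∈ A) F)

/-- number of pairs of `F` between `A` and its complement -/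
noncomputable def fX {V : Type} [Fintype V] (F : Pt V → Pt V) (A : Finset V) : ℕ :=
  (univ.filter fun x : Pt V => x.1 ∈ A ∧ (F x).1 ∉ A).card

/-- number of free points of `F` in a component of `A` -/
noncomputable def DK {V : Type} [Fintype V] (F : Pt V → Pt V) (A : Finset V)
    (K : Cm (bl Prod.fst A) (rs (fun x : Pt V => x.1 ∈ A) F)) : ℕ :=
  (univ.filter fun x : {x : Pt V // x.1 ∈ A} =>
    F x.1 = x.1 ∧ (Quot.mk _ (bl Prod.fst A x) : Cm (bl Prod.fst A) (rs (fun x : Pt V => x.1 ∈ A) F)) = K).card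

/-- both parts of `F` are forests -/
def FF2 {V : Type} [Fintype V] (F : Pt V → Pt V) (A : Finset V) : Prop :=
  For (bl Prod.fst A) (rs (fun x : Pt V => x.1 ∈ A) F) ∧
    For (bl Prod.fst Aᶜ) (rs (fun x : Pt V => x.1 ∈ Aᶜ) F)

/-- PAIRINGS CONTAINING `F` FOR WHICH `A` IS GOOD.

Notation: `f = fI F A / 2`, `g = fI F Aᶜ / 2`, `x = fX F A` numbers of pairs of `F` inside `A`, inside `Aᶜ`,
between; `mv F = 2(f + g + x)`, so `f + g + x ≤ m`.
Proof.  Let `Z = Fx F` (free points), `Z_A`, `Z_B` its parts.  The pairings `σ ⊇ F` correspond to the pairings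
`σ'` of `Z` (as in `S_prF`).  Let `ρ0 = rs A F`, `ρ = rs A σ` on the points of `A`; `Sub ρ0 ρ`.  By `S_2ST`:
`TreeOn σ A` iff `For ρ0` and `Tre (qm ..) (rt ρ0 ρ)`.  The points of `Fx ρ0` are the free points `Z_A` and
the points of `A` which `F` pairs outside of `A`; the latter are fixed by `ρ`, so by `S_rem`
`Tre (qm ..) (rt ρ0 ρ)` iff `Tre (bA : Z_A → Cm) (rs (· ∈ Z_A) σ')`, `bA z = class of the vertex of z`.
If `For ρ0` or `For ρ0'` (for `Aᶜ`) fails the number is 0.  Otherwise by `S_DEC` on `Z = Z_A ⊔ Z_B` the number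
is the sum over the trees `ρ1` on `Z_A`, `ρ2` on `Z_B` of `|Fx ρ1|!` if `|Fx ρ1| = |Fx ρ2|`.  Here
`|Z_A| = 3m - 2f - x`, the number of blocks is `|Cm| = m - f` (`For ρ0`), `|Fx ρ1| = |Z_A| - 2(m - f - 1)
= m + 2 - x`, the same for `ρ2`.  So the number is `#trees(Z_A) * #trees(Z_B) * (m+2-x)!`.  By `S_T`
(`2 (m-f) ≤ |Z_A| + 2` as `x ≤ m + 2`; `|Z_A| > 0` since `2f + x ≤ 2m`, `|Cm| > 0`)
`#trees(Z_A) (m+2-x)! = ∏ DK F A K (2m - f - x)!`, and the same for `B`.  Multiply. -/
def S_L3 : Prop := ∀ (V : Type) [Fintype V] (m : ℕ) (F : Pt V → Pt V) (A : Finset V),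
  Inv F → 0 < m → A.card = m → Aᶜ.card = m → mv F ≤ 2 * m →
  (¬ FF2 F A → ((prs (Pt V)).filter fun σ => Sub F σ ∧ Jp σ A).card = 0) ∧
  (FF2 F A → ((prs (Pt V)).filter fun σ => Sub F σ ∧ Jp σ A).card * (m + 2 - fX F A).factorial =
    (∏ K, DK F A K) * (∏ K, DK F Aᶜ K) *
      ((2 * m - fI F A / 2 - fX F A).factorial * (2 * m - fI F Aᶜ / 2 - fX F A).factorial))

/-- The two sides have the same size.

Proof.  `A` has `3|A|` points, `2(|A|-1)` of them are paired inside `A` (`Tre`), so `|A| + 2` are paired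
outside; the same for `Aᶜ`, and `σ` is a bijection between these two sets.  `0 < |A|` since
`mv + 2 = 2 |A|`. -/
def S_Jc : Prop := ∀ (V : Type) [Fintype V] (σ : Pt V → Pt V) (A : Finset V), IsPr σ → Jp σ A →
  A.card = Aᶜ.card ∧ 0 < A.card

/-- FIRST MOMENT.

Proof.  `∑ σ, Y σ = ∑ A, #{σ pairing | Jp σ A}`; by `S_Jc` only `A` with `|A| = m` count, `(2m).choose m` of
them; for these use `S_L3` with `F = id` (`Inv`, `mv id = 0`, `Sub id σ` trivial, `rs A id = id`, which is a
forest with all components single vertices, `fI = fX = 0`, `DK = 3`):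
`# * (m+2)! = 3^m 3^m (2m)! (2m)!`. -/
def S_N1 : Prop := ∀ m : ℕ, 0 < m →
  (∑ σ ∈ prs (Pt (Fin (2 * m))), (Y σ : ℝ)) = N1 m

end Pool.Agent.ALM
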