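import Pool.Agent.Lib.MP_fc2a59_co.ALM.T.Stm

set_option autoImplicit false

/-!
# Project ALM, piece p_N1: the first moment
-/

namespace Pool.Agent.ALM

open Finset
open scoped Classical

namespace N1X

/-- with the trivial involution the components are the blocks -/
def eqv {X W : Type} (b : X → W) (ρ : X → X) (h : ∀ x, ρ x = x) : Cm b ρ ≃ W where
  toFun := Quot.lift (fun w => w) (by
    rintro u v ⟨x, rfl, h2⟩
    rw [h x] at h2
    exact h2)
  invFun := Quot.mk _
  left_inv := by rintro ⟨w⟩; rfl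
  right_inv := fun _ => rfl

lemma nc_id {X W : Type} [Fintype W] (b : X → W) (ρ : X → X) (h : ∀ x, ρ x = x) :
    nc b ρ = Fintype.card W := by
  unfold nc
  rw [Nat.card_congr (eqv b ρ h), Nat.card_eq_fintype_card]

lemma mv_id {X : Type} [Fintype X] (ρ : X → X) (h : ∀ x, ρ x = x) : mv ρ = 0 := by
  unfold mv
  rw [card_eq_zero, filter_eq_empty_iff]
  intro x _ hx
  exact hx (h x)

lemma rs_id {X : Type} (P : X → Prop) (x : {x : X // P x}) : rs P id x = x := by
  unfold rs
  split_ifs with h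
  · rfl
  · rfl

lemma for_id {X W : Type} [Fintype X] [Fintype W] (b : X → W) (ρ : X → X) (h : ∀ x, ρ x = x) :
    For b ρ := by
  refine ⟨fun x => by rw [h, h], ?_⟩
  rw [mv_id ρ h, nc_id b ρ h]
  ring

variable {V : Type} [Fintype V]

lemma compl_card (A : Finset V) : Aᶜ.card + A.card = Fintype.card V := card_compl_add_card A

lemma ff2 (A : Finset V) : FF2 (id : Pt V → Pt V) A :=
  ⟨for_id _ _ (rs_id _), for_id _ _ (rs_id _)⟩

lemma dk (A : Finset V) (K : Cm (bl Prod.fst A) (rs (fun x : Pt V => x.1 ∈ A) id)) :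
    DK (id : Pt V → Pt V) A K = 3 := by
  have hK : ∃ w : {v : V // v ∈ A}, Quot.mk _ w = K := by
    induction K using Quot.ind with
    | mk w => exact ⟨w, rfl⟩
  obtain ⟨w, rfl⟩ := hK
  unfold DK
  have h3 : (univ : Finset (Fin 3)).card = 3 := by simp
  refine Eq.trans (Eq.symm ?_) h3
  refine card_bij (fun (i : Fin 3) _ => (⟨(w.1, i), w.2⟩ : {x : Pt V // x.1 ∈ A})) ?_ ?_ ?_
  · intro i _
    simp [bl]
  · intro i _ j _ h
    simpa using h
  · rintro ⟨⟨v, i⟩, hv⟩ hx
    rw [mem_filter] at hx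
    have h2 := congrArg (eqv (bl Prod.fst A) (rs (fun x : Pt V => x.1 ∈ A) id) (rs_id _)) hx.2.2
    have h4 : (⟨v, hv⟩ : {v : V // v ∈ A}) = w := h2
    refine ⟨i, mem_univ _, ?_⟩
    subst h4
    rfl

lemma prodDK (A : Finset V) : (∏ K, DK (id : Pt V → Pt V) A K) = 3 ^ A.card := by
  rw [prod_congr rfl (fun K _ => dk A K), prod_const, card_univ, ← Nat.card_eq_fintype_card,
    Nat.card_congr (eqv (bl Prod.fst A) (rs (fun x : Pt V => x.1 ∈ A) id) (rs_id _)),
    Nat.card_eq_fintype_card, Fintype.card_coe]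

lemma fI_id (A : Finset V) : fI (id : Pt V → Pt V) A = 0 := mv_id _ (rs_id _)

lemma fX_id (A : Finset V) : fX (id : Pt V → Pt V) A = 0 := by
  unfold fX
  rw [card_eq_zero, filter_eq_empty_iff]
  rintro x _ ⟨h1, h2⟩
  exact h2 h1

lemma count (h1 : S_L3) (m : ℕ) (hm : 0 < m) (A : Finset V) (hA : A.card = m) (hA' : Aᶜ.card = m) :
    (((prs (Pt V)).filter fun σ => Jp σ A).card : ℝ) =
      9 ^ m * ((2 * m).factorial : ℝ) ^ 2 / ((m + 2).factorial : ℝ) := by
  have h := (h1 V m id A (fun _ => rfl) hm hA hA' (by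
    rw [mv_id id (fun _ => rfl)]; omega)).2 (ff2 A)
  rw [prodDK, prodDK, fI_id, fI_id, fX_id, hA, hA'] at h
  have h2 : ((prs (Pt V)).filter fun σ => Sub id σ ∧ Jp σ A) = ((prs (Pt V)).filter fun σ => Jp σ A) := by
    apply filter_congr
    intro σ _
    constructor
    · exact fun h => h.2
    · exact fun h => ⟨fun x hx => absurd rfl hx, h⟩
  rw [h2] at h
  have h3 := congrArg (Nat.cast : ℕ → ℝ) h
  push_cast at h3
  simp only [Nat.sub_zero] at h3
  have h4 : ((m + 2).factorial : ℝ) ≠ 0 := by positivity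
  rw [eq_div_iff h4]
  have h5 : (9 : ℝ) ^ m = 3 ^ m * 3 ^ m := by rw [← mul_pow]; norm_num
  rw [h5]
  rw [h3]
  ring

end N1X

/-- piece p_N1 -/
theorem p_N1 (h1 : S_L3) (h2 : S_Jc) : S_N1 := by
  intro m hm
  have e1 : (∑ σ ∈ prs (Pt (Fin (2 * m))), (Y σ : ℝ)) =
      ∑ A : Finset (Fin (2 * m)), (((prs (Pt (Fin (2 * m)))).filter fun σ => Jp σ A).card : ℝ) := by
    have : ∀ σ : Pt (Fin (2 * m)) → Pt (Fin (2 * m)), (Y σ : ℝ) =
        ∑ A : Finset (Fin (2 * m)), if Jp σ A then (1 : ℝ) else 0 := by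
      intro σ
      unfold Y
      rw [card_filter]
      push_cast
      rfl
    rw [sum_congr rfl fun σ _ => this σ, sum_comm]
    refine sum_congr rfl fun A _ => ?_
    rw [card_filter]
    push_cast
    rfl
  rw [e1]
  have e2 : ∀ A : Finset (Fin (2 * m)),
      (((prs (Pt (Fin (2 * m)))).filter fun σ => Jp σ A).card : ℝ) =
      if A ∈ powersetCard m (univ : Finset (Fin (2 * m))) then
        9 ^ m * ((2 * m).factorial : ℝ) ^ 2 / ((m + 2).factorial : ℝ) else 0 := by
    intro A
    have hc := N1X.compl_card A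
    rw [Fintype.card_fin] at hc
    split_ifs with hA
    · rw [mem_powersetCard] at hA
      exact N1X.count h1 m hm A hA.2 (by omega)
    · have : ((prs (Pt (Fin (2 * m)))).filter fun σ => Jp σ A) = ∅ := by
        rw [filter_eq_empty_iff]
        intro σ hσ hJ
        apply hA
        rw [mem_powersetCard]
        refine ⟨subset_univ _, ?_⟩
        have h3 := (h2 (Fin (2 * m)) σ A (by simpa [prs] using hσ) hJ).1
        omega
      rw [this]
      simp
  rw [sum_congr rfl fun A _ => e2 A, ← sum_filter]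
  rw [sum_const]
  have e3 : ((univ : Finset (Finset (Fin (2 * m)))).filter fun A =>
      A ∈ powersetCard m (univ : Finset (Fin (2 * m)))) = powersetCard m univ := by
    ext A; simp
  rw [e3, card_powersetCard, card_univ, Fintype.card_fin, nsmul_eq_mul]
  unfold N1
  ring

end Pool.Agent.ALM
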