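import Pool.Agent.Lib.MP_fc2a59_co.ALM.T.Stm

set_option autoImplicit false

/-!
# Project ALM, section T: number of spanning trees on blocks

Proof of `S_T` by the recursion of its docstring: one point `x` is chosen and the trees are split by the
partner of `x`.
-/

namespace Pool.Agent.ALM

open Finset
open scoped Classical

namespace TX

variable {X W X' W' : Type}

/-- equality of the numbers of components -/
lemma nc_eq (b : X → W) (ρ : X → X) (b' : X' → W') (ρ' : X' → X')
    (f : W → W') (g : W' → W)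
    (h1 : ∀ x, (Quot.mk (lk b' ρ') (f (b x))) = Quot.mk _ (f (b (ρ x))))
    (h2 : ∀ x, (Quot.mk (lk b ρ) (g (b' x))) = Quot.mk _ (g (b' (ρ' x))))
    (h3 : ∀ w, Quot.mk (lk b ρ) (g (f w)) = Quot.mk _ w)
    (h4 : ∀ w, Quot.mk (lk b' ρ') (f (g w)) = Quot.mk _ w) : nc b ρ = nc b' ρ' := by
  unfold nc
  refine Nat.card_congr ⟨?_, ?_, ?_, ?_⟩
  · exact Quot.lift (fun w => Quot.mk _ (f w)) (by rintro u v ⟨x, rfl, rfl⟩; exact h1 x)
  · exact Quot.lift (fun w => Quot.mk _ (g w)) (by rintro u v ⟨x, rfl, rfl⟩; exact h2 x)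
  · intro q; induction q using Quot.ind; exact h3 _
  · intro q; induction q using Quot.ind; exact h4 _

/-- extension of a map of the points with `p` by `τ` -/
noncomputable def ext (p : X → Prop) (τ : X → X) (ρ : {z // p z} → {z // p z}) (z : X) : X :=
  if h : p z then (ρ ⟨z, h⟩).1 else τ z

lemma ext_pos (p : X → Prop) (τ : X → X) (ρ : {z // p z} → {z // p z}) {z : X} (h : p z) :
    ext p τ ρ z = (ρ ⟨z, h⟩).1 := dif_pos h

lemma ext_neg (p : X → Prop) (τ : X → X) (ρ : {z // p z} → {z // p z}) {z : X} (h : ¬ p z) :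
    ext p τ ρ z = τ z := dif_neg h

lemma ext_inj (p : X → Prop) (τ : X → X) : Function.Injective (ext p τ) := by
  intro ρ ρ' h
  funext z
  have := congrFun h z.1
  rw [ext_pos p τ ρ z.2, ext_pos p τ ρ' z.2] at this
  exact Subtype.ext this

lemma inv_ext (p : X → Prop) (τ : X → X) (hτ : ∀ z, ¬ p z → ¬ p (τ z) ∧ τ (τ z) = z)
    (ρ : {z // p z} → {z // p z}) : Inv (ext p τ ρ) ↔ Inv ρ := by
  constructor
  · intro h z
    have := h z.1
    rw [ext_pos p τ ρ z.2, ext_pos p τ ρ (ρ _).2] at this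
    exact Subtype.ext this
  · intro h z
    by_cases hz : p z
    · rw [ext_pos p τ ρ hz, ext_pos p τ ρ (ρ _).2]
      have := h ⟨z, hz⟩
      rw [Subtype.coe_eta, this]
    · rw [ext_neg p τ ρ hz, ext_neg p τ ρ (hτ z hz).1, (hτ z hz).2]

lemma card_sub [Fintype X] (p : X → Prop) {_ : Fintype {z // p z}} (q : {z // p z} → Prop)
    {_ : DecidablePred q} (s : Finset X) (h : ∀ z, z ∈ s ↔ ∃ hz : p z, q ⟨z, hz⟩) :
    (univ.filter q).card = s.card := by
  refine Finset.card_bij (fun z _ => z.1) ?_ ?_ ?_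
  · intro z hz
    simp only [mem_filter, mem_univ, true_and] at hz
    exact (h _).2 ⟨z.2, hz⟩
  · intro z _ z' _ h
    exact Subtype.ext h
  · intro z hz
    obtain ⟨hz, hq⟩ := (h _).1 hz
    exact ⟨⟨z, hz⟩, by simpa using hq, rfl⟩

lemma mv_ext [Fintype X] (p : X → Prop) [Fintype {z // p z}] (τ : X → X)
    (ρ : {z // p z} → {z // p z}) (s : Finset X) (hs : ∀ z, z ∈ s ↔ ¬ p z ∧ τ z ≠ z) :
    mv (ext p τ ρ) = mv ρ + s.card := by
  unfold mv
  rw [card_sub p (fun z => ρ z ≠ z) (univ.filter fun z => p z ∧ ext p τ ρ z ≠ z),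
    ← Finset.card_union_of_disjoint]
  · congr 1
    ext z
    simp only [mem_filter, mem_univ, true_and, mem_union, hs]
    by_cases hz : p z
    · simp [hz]
    · simp [hz, ext_neg p τ ρ hz]
  · rw [Finset.disjoint_left]
    intro z h h'
    simp only [mem_filter, mem_univ, true_and] at h
    exact ((hs z).1 h').1 h.1
  · intro z
    simp only [mem_filter, mem_univ, true_and]
    constructor
    · rintro ⟨h1, h2⟩
      refine ⟨h1, fun h3 => h2 ?_⟩
      rw [ext_pos p τ ρ h1, h3]
    · rintro ⟨h1, h2⟩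
      refine ⟨h1, fun h3 => h2 ?_⟩
      rw [ext_pos p τ ρ h1] at h3
      exact Subtype.ext h3

lemma ext_surj (p : X → Prop) (τ : X → X) (hτ : ∀ z, ¬ p z → ¬ p (τ z) ∧ τ (τ z) = z)
    {ρ : X → X} (h : Inv ρ) (h' : ∀ z, ¬ p z → ρ z = τ z) : ∃ ρ', ext p τ ρ' = ρ := by
  have hp : ∀ z, p z → p (ρ z) := by
    intro z hz
    by_contra hn
    have h1 := h' _ hn
    rw [h z] at h1
    exact (hτ _ hn).1 (h1 ▸ hz)
  refine ⟨fun z => ⟨ρ z.1, hp _ z.2⟩, ?_⟩
  funext z
  by_cases hz : p z
  · rw [ext_pos p τ _ hz]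
  · rw [ext_neg p τ _ hz, h' z hz]

/-- number of spanning trees -/
noncomputable def P [Fintype X] [Fintype W] (b : X → W) : ℕ :=
  (univ.filter fun ρ : X → X => Tre b ρ).card

lemma count [Fintype X] [Fintype W] [Fintype W'] (p : X → Prop) [Fintype {z // p z}] (τ : X → X)
    (hτ : ∀ z, ¬ p z → ¬ p (τ z) ∧ τ (τ z) = z) (b : X → W) (b' : {z // p z} → W')
    (s : Finset (X → X)) (hs : ∀ ρ, ρ ∈ s ↔ Tre b ρ ∧ ∀ z, ¬ p z → ρ z = τ z)
    (h : ∀ ρ', Inv ρ' → (Tre b (ext p τ ρ') ↔ Tre b' ρ')) : s.card = P b' := by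
  unfold P
  rw [← Finset.card_image_of_injective _ (ext_inj p τ)]
  congr 1
  ext ρ
  rw [hs]
  simp only [mem_filter, mem_univ, true_and, mem_image]
  constructor
  · rintro ⟨h1, h2⟩
    obtain ⟨ρ', rfl⟩ := ext_surj p τ hτ h1.1 h2
    exact ⟨ρ', (h ρ' ((inv_ext p τ hτ ρ').1 h1.1)).1 h1, rfl⟩
  · rintro ⟨ρ', h1, rfl⟩
    exact ⟨(h ρ' h1.1).2 h1, fun z hz => ext_neg p τ ρ' hz⟩

/-- too few points -/
lemma P_zero [Fintype X] [Fintype W] (b : X → W) (h : Fintype.card X + 2 < 2 * Fintype.card W) :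
    P b = 0 := by
  unfold P
  rw [Finset.card_eq_zero, Finset.filter_eq_empty_iff]
  rintro ρ _ ⟨_, _, h3⟩
  have : mv ρ ≤ Fintype.card X := Finset.card_le_univ _
  omega

/-- an empty block -/
lemma P_empty [Fintype X] [Fintype W] (b : X → W) (h : 2 ≤ Fintype.card W) (w0 : W)
    (hw : ∀ x, b x ≠ w0) : P b = 0 := by
  unfold P
  rw [Finset.card_eq_zero, Finset.filter_eq_empty_iff]
  rintro ρ _ ⟨_, h2, _⟩
  have : Nontrivial W := Fintype.one_lt_card_iff_nontrivial.1 h
  obtain ⟨w1, hw1⟩ := exists_ne w0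
  have hs : Subsingleton (Cm b ρ) := (Nat.card_eq_one_iff_unique.1 h2).1
  have h3 : (Quot.mk (lk b ρ) w0) = Quot.mk (lk b ρ) w1 := hs.elim _ _
  have h4 : (w0 = w0) = (w1 = w0) := congrArg (Quot.lift (fun w => w = w0) (by
    rintro u v ⟨x, rfl, rfl⟩
    simp [hw])) h3
  exact hw1 (h4.mp rfl)

/-- one block -/
lemma P_one [Fintype X] [Fintype W] (b : X → W) (h : Fintype.card W = 1) : P b = 1 := by
  unfold P
  rw [Finset.card_eq_one]
  refine ⟨id, ?_⟩
  ext ρ
  simp only [mem_filter, mem_univ, true_and, mem_singleton]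
  constructor
  · rintro ⟨_, _, h3⟩
    have h4 : mv ρ = 0 := by omega
    unfold mv at h4
    rw [Finset.card_eq_zero, Finset.filter_eq_empty_iff] at h4
    funext z
    simpa using h4 (mem_univ z)
  · rintro rfl
    obtain ⟨w, hw⟩ := Fintype.card_eq_one_iff.1 h
    refine ⟨fun _ => rfl, ?_, by simp [mv, h]⟩
    unfold nc
    rw [Nat.card_eq_one_iff_unique]
    refine ⟨⟨?_⟩, ⟨Quot.mk _ w⟩⟩
    intro p q
    induction p using Quot.ind
    induction q using Quot.ind
    rename_i u v
    rw [hw u, hw v]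

/-- the point `x` is free -/
lemma count_free [Fintype X] [Fintype W] (b : X → W) (x : X) (s : Finset (X → X))
    (hs : ∀ ρ, ρ ∈ s ↔ Tre b ρ ∧ ρ x = x) :
    s.card = P (fun z : {z // z ≠ x} => b z.1) := by
  apply count (fun z => z ≠ x) id (by simp) b (fun z => b z.1)
  · intro ρ
    rw [hs]
    simp
  · intro ρ' hρ'
    have hi := inv_ext (fun z : X => z ≠ x) id (by simp) ρ'
    have hm := mv_ext (fun z : X => z ≠ x) id ρ' ∅ (by simp)
    have hn : nc b (ext (fun z => z ≠ x) id ρ') = nc (fun z : {z // z ≠ x} => b z.1) ρ' := by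
      refine nc_eq _ _ _ _ id id ?_ ?_ (fun _ => rfl) (fun _ => rfl)
      · intro z
        by_cases hz : z ≠ x
        · rw [ext_pos (fun z => z ≠ x) id ρ' hz]
          exact Quot.sound ⟨⟨z, hz⟩, rfl, rfl⟩
        · rw [ext_neg (fun z => z ≠ x) id ρ' hz]
          rfl
      · intro z
        refine Quot.sound ⟨z.1, rfl, ?_⟩
        rw [ext_pos (fun z => z ≠ x) id ρ' z.2]
        rfl
    unfold Tre
    rw [hi, hm, hn]
    simp

lemma or_of {x y : X} (z : X) (hz : ¬ (z ≠ x ∧ z ≠ y)) : z = x ∨ z = y := by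
  by_contra hc
  push Not at hc
  exact hz hc

lemma swap_ok (x y : X) : ∀ z, ¬ (z ≠ x ∧ z ≠ y) → ¬ (Equiv.swap x y z ≠ x ∧ Equiv.swap x y z ≠ y) ∧
    Equiv.swap x y (Equiv.swap x y z) = z := by
  intro z hz
  rcases or_of z hz with rfl | rfl <;> simp

lemma mem_xy {x y : X} (hxy : x ≠ y) (z : X) :
    z ∈ ({x, y} : Finset X) ↔ ¬ (z ≠ x ∧ z ≠ y) ∧ Equiv.swap x y z ≠ z := by
  simp only [mem_insert, mem_singleton]
  constructor
  · rintro (rfl | rfl)
    · simp [hxy.symm]
    · simp [hxy]
  · rintro ⟨h, _⟩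
    exact or_of z h

/-- two points of the same block cannot be paired -/
lemma count_loop (h1 : S_ncle) [Fintype X] [Fintype W] (b : X → W) (x y : X) (hxy : x ≠ y)
    (hb : b x = b y) (ρ : X → X) (h2 : Tre b ρ) (h5 : ρ x = y) : False := by
  obtain ⟨h2, h3, h4⟩ := h2
  have h6 : ρ y = x := by rw [← h5, h2]
  obtain ⟨ρ', hρ'⟩ := ext_surj (fun z => z ≠ x ∧ z ≠ y) (Equiv.swap x y) (swap_ok x y) h2 (by
    intro z hz
    rcases or_of z hz with rfl | rfl
    · simp [h5]
    · simp [h6])
  have hi := (inv_ext _ _ (swap_ok x y) ρ').1 (hρ' ▸ h2)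
  have hm := mv_ext (fun z => z ≠ x ∧ z ≠ y) (Equiv.swap x y) ρ' {x, y} (mem_xy hxy)
  rw [hρ', Finset.card_pair hxy] at hm
  have hn : nc b ρ = nc (fun z : {z // z ≠ x ∧ z ≠ y} => b z.1) ρ' := by
    rw [← hρ']
    refine nc_eq _ _ _ _ id id ?_ ?_ (fun _ => rfl) (fun _ => rfl)
    · intro z
      by_cases hz : z ≠ x ∧ z ≠ y
      · rw [ext_pos (fun z => z ≠ x ∧ z ≠ y) _ ρ' hz]
        exact Quot.sound ⟨⟨z, hz⟩, rfl, rfl⟩
      · rw [ext_neg (fun z => z ≠ x ∧ z ≠ y) _ ρ' hz]
        rcases or_of z hz with rfl | rfl <;> simp [hb]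
    · intro z
      refine Quot.sound ⟨z.1, rfl, ?_⟩
      rw [ext_pos (fun z => z ≠ x ∧ z ≠ y) _ ρ' z.2]
      rfl
  have h7 := h1 {z // z ≠ x ∧ z ≠ y} W (fun z => b z.1) ρ' hi
  omega

/-- the map of the blocks which sends `j` to `i` -/
noncomputable def mg {i j : W} (hij : i ≠ j) (w : W) : {w // w ≠ j} :=
  if h : w = j then ⟨i, hij⟩ else ⟨w, h⟩

lemma mg_val {i j : W} (hij : i ≠ j) (w : W) : (mg hij w).1 = if w = j then i else w := by
  unfold mg
  split_ifs <;> rfl

/-- the point `x` is paired with a point of another block -/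
lemma count_pair [Fintype X] [Fintype W] (b : X → W) (x y : X) (hb : b x ≠ b y)
    (s : Finset (X → X)) (hs : ∀ ρ, ρ ∈ s ↔ Tre b ρ ∧ ρ x = y) :
    s.card = P (fun z : {z // z ≠ x ∧ z ≠ y} => mg hb (b z.1)) := by
  have hxy : x ≠ y := fun h => hb (by rw [h])
  apply count (fun z => z ≠ x ∧ z ≠ y) (Equiv.swap x y) (swap_ok x y) b (fun z => mg hb (b z.1))
  · intro ρ
    rw [hs]
    constructor
    · rintro ⟨h1, h2⟩
      refine ⟨h1, fun z hz => ?_⟩
      rcases or_of z hz with rfl | rfl
      · simp [h2]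
      · rw [← h2, h1.1]
        simp
    · rintro ⟨h1, h2⟩
      exact ⟨h1, by simpa using h2 x (by simp)⟩
  · intro ρ' hρ'
    have hi := inv_ext (fun z : X => z ≠ x ∧ z ≠ y) _ (swap_ok x y) ρ'
    have hm := mv_ext (fun z : X => z ≠ x ∧ z ≠ y) (Equiv.swap x y) ρ' {x, y} (mem_xy hxy)
    rw [Finset.card_pair hxy] at hm
    have hxyq : (Quot.mk (lk b (ext (fun z : X => z ≠ x ∧ z ≠ y) (Equiv.swap x y) ρ')) (b x)) =
        Quot.mk _ (b y) := by
      refine Quot.sound ⟨x, rfl, ?_⟩
      rw [ext_neg (fun z : X => z ≠ x ∧ z ≠ y) _ ρ' (by simp)]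
      simp
    have hg : ∀ w, (Quot.mk (lk b (ext (fun z : X => z ≠ x ∧ z ≠ y) (Equiv.swap x y) ρ'))
        ((mg hb w).1)) = Quot.mk _ w := by
      intro w
      rw [mg_val]
      split_ifs with h
      · rw [h, hxyq]
      · rfl
    have hn : nc b (ext (fun z => z ≠ x ∧ z ≠ y) (Equiv.swap x y) ρ') =
        nc (fun z : {z // z ≠ x ∧ z ≠ y} => mg hb (b z.1)) ρ' := by
      refine nc_eq _ _ _ _ (mg hb) Subtype.val ?_ ?_ hg ?_
      · intro z
        by_cases hz : z ≠ x ∧ z ≠ y
        · rw [ext_pos (fun z : X => z ≠ x ∧ z ≠ y) _ ρ' hz]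
          exact Quot.sound ⟨⟨z, hz⟩, rfl, rfl⟩
        · rw [ext_neg (fun z : X => z ≠ x ∧ z ≠ y) _ ρ' hz]
          rcases or_of z hz with rfl | rfl
          · congr 1
            apply Subtype.ext
            rw [mg_val, mg_val]
            simp
          · congr 1
            apply Subtype.ext
            rw [mg_val, mg_val]
            simp
      · intro z
        simp only [hg]
        refine Quot.sound ⟨z.1, rfl, ?_⟩
        rw [ext_pos (fun z : X => z ≠ x ∧ z ≠ y) _ ρ' z.2]
      · intro w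
        congr 1
        apply Subtype.ext
        rw [mg_val, if_neg w.2]
    have hw : Fintype.card {w // w ≠ b y} = Fintype.card W - 1 := by
      rw [Fintype.card_subtype_compl, Fintype.card_subtype_eq]
    have hw' : 1 < Fintype.card W := Fintype.one_lt_card_iff.2 ⟨_, _, hb⟩
    unfold Tre
    rw [hi, hm, hn, hw]
    constructor
    · rintro ⟨h1, h2, h3⟩
      exact ⟨h1, h2, by omega⟩
    · rintro ⟨h1, h2, h3⟩
      exact ⟨h1, h2, by omega⟩

/-- the recursion -/
lemma rec_P (h1 : S_ncle) [Fintype X] [Fintype W] (b : X → W) (x : X) :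
    P b = P (fun z : {z // z ≠ x} => b z.1) +
      ∑ y : X, if h : b x ≠ b y then P (fun z : {z // z ≠ x ∧ z ≠ y} => mg h (b z.1)) else 0 := by
  have h2 : P b = ∑ y : X, (univ.filter fun ρ : X → X => Tre b ρ ∧ ρ x = y).card := by
    unfold P
    rw [Finset.card_eq_sum_card_fiberwise (f := fun ρ : X → X => ρ x) (t := univ) (by simp)]
    refine Finset.sum_congr rfl fun y _ => ?_
    rw [Finset.filter_filter]
  rw [h2, ← Finset.add_sum_erase _ _ (mem_univ x), count_free b x _ (by simp)]
  congr 1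
  rw [← Finset.add_sum_erase univ (fun y => if h : b x ≠ b y then
    P (fun z : {z // z ≠ x ∧ z ≠ y} => mg h (b z.1)) else 0) (mem_univ x)]
  rw [dif_neg (by simp), zero_add]
  refine Finset.sum_congr rfl fun y hy => ?_
  rw [Finset.mem_erase] at hy
  split_ifs with h
  · exact count_pair b x y h _ (by simp)
  · push Not at h
    rw [Finset.card_eq_zero, Finset.filter_eq_empty_iff]
    rintro ρ _ ⟨h2, h3⟩
    exact count_loop h1 b x y hy.1.symm h ρ h2 h3

/-- block sizes -/
noncomputable def D [Fintype X] (b : X → W) (w : W) : ℕ := (univ.filter fun x => b x = w).card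

lemma sum_D [Fintype X] [Fintype W] (b : X → W) : ∑ w, D b w = Fintype.card X := by
  unfold D
  rw [← Finset.card_univ]
  exact (Finset.card_eq_sum_card_fiberwise (f := b) (t := univ) (by simp)).symm

lemma D_free [Fintype X] (b : X → W) (x : X) (w : W) :
    D (fun z : {z // z ≠ x} => b z.1) w = if w = b x then D b w - 1 else D b w := by
  unfold D
  split_ifs with h
  · subst h
    rw [← Finset.card_erase_of_mem (a := x) (by simp)]
    apply card_sub
    intro z
    simp
  · apply card_sub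
    intro z
    simp only [mem_filter, mem_univ, true_and]
    constructor
    · intro h1
      exact ⟨by rintro rfl; exact h h1.symm, h1⟩
    · rintro ⟨_, h1⟩
      exact h1

lemma D_pair [Fintype X] (b : X → W) (x y : X) (h : b x ≠ b y) (w : {w // w ≠ b y}) :
    D (fun z : {z // z ≠ x ∧ z ≠ y} => mg h (b z.1)) w =
      if w.1 = b x then D b (b x) + D b (b y) - 2 else D b w.1 := by
  have hxy : x ≠ y := fun h' => h (by rw [h'])
  unfold D
  split_ifs with hw
  · have h3 : (univ.filter fun z => b z = b x).card + (univ.filter fun z => b z = b y).card - 2 =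
        ((((univ.filter fun z => b z = b x) ∪ (univ.filter fun z => b z = b y)).erase x).erase y).card
        := by
      rw [Finset.card_erase_of_mem, Finset.card_erase_of_mem, Finset.card_union_of_disjoint]
      · omega
      · rw [Finset.disjoint_filter]
        intro z _ h3 h4
        exact h (h3.symm.trans h4)
      · simp
      · simp [hxy.symm]
    rw [h3]
    apply card_sub
    intro z
    simp only [mem_filter, mem_univ, true_and, mem_erase, mem_union, Subtype.ext_iff, mg_val, hw]
    constructor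
    · rintro ⟨h4, h3, h5⟩
      refine ⟨⟨h3, h4⟩, ?_⟩
      rcases h5 with h5 | h5
      · rw [h5]; simp [h]
      · rw [h5]; simp
    · rintro ⟨⟨h3, h4⟩, h5⟩
      refine ⟨h4, h3, ?_⟩
      split_ifs at h5 with h6
      · exact Or.inr h6
      · exact Or.inl h5
  · apply card_sub
    intro z
    simp only [mem_filter, mem_univ, true_and, Subtype.ext_iff, mg_val]
    constructor
    · intro h5
      refine ⟨⟨?_, ?_⟩, ?_⟩
      · rintro rfl; exact hw h5.symm
      · rintro rfl; exact w.2 h5.symm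
      · rw [h5, if_neg w.2]
    · rintro ⟨_, h5⟩
      split_ifs at h5 with h6
      · exact absurd h5.symm hw
      · exact h5

lemma sum_blocks [Fintype X] [Fintype W] (b : X → W) (g : W → ℕ) :
    ∑ y, g (b y) = ∑ w, D b w * g w := by
  rw [← Finset.sum_fiberwise_of_maps_to' (s := univ) (t := univ) (g := b) (by simp) g]
  refine Finset.sum_congr rfl fun w _ => ?_
  rw [Finset.sum_const, smul_eq_mul, D]

/-- product of the block sizes after removing a free point -/
lemma prod_free [Fintype X] [Fintype W] (b : X → W) (x : X) :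
    ∏ w, D (fun z : {z // z ≠ x} => b z.1) w =
      (D b (b x) - 1) * ∏ w ∈ univ.erase (b x), D b w := by
  rw [← Finset.mul_prod_erase _ _ (mem_univ (b x))]
  congr 1
  · rw [D_free, if_pos rfl]
  · refine Finset.prod_congr rfl fun w hw => ?_
    rw [D_free, if_neg (Finset.ne_of_mem_erase hw)]

/-- product of the block sizes after contracting a pair -/
lemma prod_pair [Fintype X] [Fintype W] (b : X → W) (x y : X) (h : b x ≠ b y) :
    ∏ w, D (fun z : {z // z ≠ x ∧ z ≠ y} => mg h (b z.1)) w =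
      (D b (b x) + D b (b y) - 2) * ∏ w ∈ (univ.erase (b x)).erase (b y), D b w := by
  have h1 : ∏ w, D (fun z : {z // z ≠ x ∧ z ≠ y} => mg h (b z.1)) w =
      ∏ w : {w // w ≠ b y}, (fun w : W => if w = b x then D b (b x) + D b (b y) - 2 else D b w) w.1
      := Finset.prod_congr rfl fun w _ => D_pair b x y h w
  have h2 : ∏ w ∈ univ.erase (b y), (fun w : W => if w = b x then D b (b x) + D b (b y) - 2 else
      D b w) w = ∏ w : {w // w ≠ b y}, (fun w : W => if w = b x then D b (b x) + D b (b y) - 2 else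
      D b w) w.1 := Finset.prod_subtype (univ.erase (b y)) (by simp) _
  rw [h1, ← h2, Finset.erase_right_comm, ← Finset.mul_prod_erase _ _ (Finset.mem_erase.2
    ⟨h, mem_univ (b x)⟩), if_pos rfl]
  congr 1
  refine Finset.prod_congr rfl fun w hw => ?_
  rw [if_neg (Finset.ne_of_mem_erase hw)]

/-- the formula -/
theorem main (h1 : S_ncle) : ∀ (n : ℕ) (X W : Type) [Fintype X] [Fintype W] (b : X → W),
    Fintype.card X = n → 0 < n → 0 < Fintype.card W → 2 * Fintype.card W ≤ n + 2 →
    P b * (n + 2 - 2 * Fintype.card W).factorial =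
      (∏ w : W, D b w) * (n - Fintype.card W).factorial := by
  intro n
  induction n using Nat.strong_induction_on with
  | _ n ih =>
  intro X W _ _ b hX hn hW h2
  rcases Nat.lt_or_ge 1 (Fintype.card W) with hN | hN
  swap
  · have hN1 : Fintype.card W = 1 := by omega
    rw [P_one b hN1, hN1]
    obtain ⟨w, hw⟩ := Fintype.card_eq_one_iff.1 hN1
    have h3 : ∏ w : W, D b w = n := by
      have h4 : ∑ w, D b w = n := by rw [sum_D, hX]
      let _ : Unique W := ⟨⟨w⟩, hw⟩
      rw [Fintype.sum_unique] at h4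
      rw [Fintype.prod_unique]
      exact h4
    rw [h3]
    obtain ⟨k, rfl⟩ : ∃ k, n = k + 1 := ⟨n - 1, by omega⟩
    simp [Nat.factorial_succ]
  by_cases he : ∃ w0, ∀ x, b x ≠ w0
  · obtain ⟨w0, hw0⟩ := he
    rw [P_empty b hN w0 hw0, zero_mul, Finset.prod_eq_zero (mem_univ w0), zero_mul]
    unfold D
    rw [Finset.card_eq_zero, Finset.filter_eq_empty_iff]
    intro x _
    exact hw0 x
  push Not at he
  have hD : ∀ w, 1 ≤ D b w := by
    intro w
    obtain ⟨x, hx⟩ := he w
    exact Finset.card_pos.2 ⟨x, by simpa using hx⟩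
  obtain ⟨x⟩ : Nonempty X := Fintype.card_pos_iff.1 (by omega)
  have hsum : D b (b x) + ∑ w ∈ univ.erase (b x), D b w = n := by
    rw [Finset.add_sum_erase _ _ (mem_univ _), sum_D, hX]
  have hce : (univ.erase (b x)).card = Fintype.card W - 1 := by
    rw [Finset.card_erase_of_mem (mem_univ _), Finset.card_univ]
  have hge : Fintype.card W - 1 ≤ ∑ w ∈ univ.erase (b x), D b w := by
    rw [← hce, Finset.card_eq_sum_ones]
    exact Finset.sum_le_sum fun w _ => hD w
  have hprod : ∏ w : W, D b w = D b (b x) * ∏ w ∈ univ.erase (b x), D b w :=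
    (Finset.mul_prod_erase _ _ (mem_univ _)).symm
  have hdx := hD (b x)
  have hcx : Fintype.card {z // z ≠ x} = n - 1 := by
    rw [Fintype.card_subtype_compl, Fintype.card_subtype_eq, hX]
  have hcp : ∀ y, b x ≠ b y → Fintype.card {z // z ≠ x ∧ z ≠ y} = n - 2 := by
    intro y hy
    have hxy : x ≠ y := fun h => hy (by rw [h])
    rw [Fintype.card_subtype]
    have : (univ.filter fun z => z ≠ x ∧ z ≠ y) = (univ.erase x).erase y := by
      ext z
      simp [and_comm]
    rw [this, Finset.card_erase_of_mem (by simp [hxy.symm]), Finset.card_erase_of_mem (by simp),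
      Finset.card_univ, hX]
    omega
  have hcw : ∀ y, Fintype.card {w // w ≠ b y} = Fintype.card W - 1 := by
    intro y
    rw [Fintype.card_subtype_compl, Fintype.card_subtype_eq]
  rcases Nat.lt_or_ge (Fintype.card W) n with hlt | hge'
  swap
  · -- two blocks, two points
    have hN2 : Fintype.card W = 2 := by omega
    have hn2 : n = 2 := by omega
    have hD1 : ∀ w, D b w = 1 := by
      intro w
      have h3 : D b w + ∑ w' ∈ univ.erase w, D b w' = n := by
        rw [Finset.add_sum_erase _ _ (mem_univ _), sum_D, hX]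
      have h4 : Fintype.card W - 1 ≤ ∑ w' ∈ univ.erase w, D b w' := by
        rw [← Finset.card_univ, ← Finset.card_erase_of_mem (mem_univ w), Finset.card_eq_sum_ones]
        exact Finset.sum_le_sum fun w _ => hD w
      have := hD w
      omega
    have h5 : P b = 1 := by
      rw [rec_P h1 b x, P_zero _ (by rw [hcx]; omega), zero_add]
      have h6 : ∀ y, (if h : b x ≠ b y then P (fun z : {z // z ≠ x ∧ z ≠ y} => mg h (b z.1)) else 0) =
          (fun w => if b x ≠ w then 1 else 0) (b y) := by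
        intro y
        by_cases h : b x ≠ b y
        · rw [dif_pos h, P_one _ (by rw [hcw]; omega)]
          simp [h]
        · rw [dif_neg h]
          simp [h]
      rw [Finset.sum_congr rfl fun y _ => h6 y, sum_blocks b (fun w => if b x ≠ w then 1 else 0),
        ← Finset.add_sum_erase _ _ (mem_univ (b x))]
      have h7 : ∑ w ∈ univ.erase (b x), D b w * (if b x ≠ w then 1 else 0) =
          ∑ w ∈ univ.erase (b x), 1 := by
        refine Finset.sum_congr rfl fun w hw => ?_
        rw [hD1, if_pos (Finset.ne_of_mem_erase hw).symm]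
      rw [h7, ← Finset.card_eq_sum_ones, hce]
      simp [hN2]
    rw [h5, Finset.prod_congr rfl fun w _ => hD1 w, hN2, hn2]
    simp
  · -- the general case
    have hI : P (fun z : {z // z ≠ x} => b z.1) * (n + 2 - 2 * Fintype.card W).factorial =
        (D b (b x) - 1) * (∏ w ∈ univ.erase (b x), D b w) * (n - Fintype.card W - 1).factorial *
          (n + 2 - 2 * Fintype.card W) := by
      rcases Nat.lt_or_ge (n + 1) (2 * Fintype.card W) with h3 | h3
      · rw [P_zero _ (by rw [hcx]; omega)]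
        have : n + 2 - 2 * Fintype.card W = 0 := by omega
        rw [this]
        simp
      · have h4 := ih (n - 1) (by omega) {z // z ≠ x} W (fun z => b z.1) hcx (by omega) hW (by omega)
        rw [prod_free] at h4
        have h5 : n + 2 - 2 * Fintype.card W = (n - 1 + 2 - 2 * Fintype.card W) + 1 := by omega
        have h6 : n - 1 - Fintype.card W = n - Fintype.card W - 1 := by omega
        rw [h6] at h4
        rw [h5, Nat.factorial_succ]
        calc _ = (P (fun z : {z // z ≠ x} => b z.1) * (n - 1 + 2 - 2 * Fintype.card W).factorial) *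
              (n - 1 + 2 - 2 * Fintype.card W + 1) := by ring
          _ = _ := by rw [h4]
    have hII : ∀ y, (if h : b x ≠ b y then P (fun z : {z // z ≠ x ∧ z ≠ y} => mg h (b z.1)) else 0) *
        (n + 2 - 2 * Fintype.card W).factorial =
        (fun w => if b x ≠ w then (D b (b x) + D b w - 2) *
          (∏ w' ∈ (univ.erase (b x)).erase w, D b w') * (n - Fintype.card W - 1).factorial else 0)
          (b y) := by
      intro y
      by_cases h : b x ≠ b y
      · rw [dif_pos h]
        have h4 := ih (n - 2) (by omega) {z // z ≠ x ∧ z ≠ y} {w // w ≠ b y}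
          (fun z => mg h (b z.1)) (hcp y h) (by omega) (by rw [hcw]; omega) (by rw [hcw]; omega)
        rw [prod_pair, hcw] at h4
        have h5 : n - 2 + 2 - 2 * (Fintype.card W - 1) = n + 2 - 2 * Fintype.card W := by omega
        have h6 : n - 2 - (Fintype.card W - 1) = n - Fintype.card W - 1 := by omega
        rw [h5, h6] at h4
        rw [h4]
        simp [h]
      · rw [dif_neg h]
        simp [h]
    have hIII : (∑ y : X, if h : b x ≠ b y then
        P (fun z : {z // z ≠ x ∧ z ≠ y} => mg h (b z.1)) else 0) *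
        (n + 2 - 2 * Fintype.card W).factorial =
        (∑ w ∈ univ.erase (b x), (D b (b x) + D b w - 2)) *
          ((∏ w ∈ univ.erase (b x), D b w) * (n - Fintype.card W - 1).factorial) := by
      rw [Finset.sum_mul, Finset.sum_congr rfl fun y _ => hII y, sum_blocks b (fun w =>
        if b x ≠ w then (D b (b x) + D b w - 2) *
          (∏ w' ∈ (univ.erase (b x)).erase w, D b w') * (n - Fintype.card W - 1).factorial else 0),
        ← Finset.add_sum_erase _ _ (mem_univ (b x)), Finset.sum_mul]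
      simp only [ne_eq, not_true_eq_false, if_false, mul_zero, zero_add]
      refine Finset.sum_congr rfl fun w hw => ?_
      rw [if_pos (Finset.ne_of_mem_erase hw).symm, ← Finset.mul_prod_erase _ (fun w => D b w) hw]
      ring
    have hIV : ((∑ w ∈ univ.erase (b x), (D b (b x) + D b w - 2) : ℕ) : ℤ) =
        ((Fintype.card W : ℤ) - 1) * ((D b (b x) : ℤ) - 2) + ((n : ℤ) - D b (b x)) := by
      rw [Nat.cast_sum]
      have h4 : ∀ w ∈ univ.erase (b x), ((D b (b x) + D b w - 2 : ℕ) : ℤ) =
          ((D b (b x) : ℤ) - 2) + D b w := by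
        intro w _
        have := hD w
        rw [Nat.cast_sub (by omega)]
        push_cast
        ring
      rw [Finset.sum_congr rfl h4, Finset.sum_add_distrib, Finset.sum_const, hce, nsmul_eq_mul,
        Nat.cast_sub hW]
      have h5 : ((∑ w ∈ univ.erase (b x), D b w : ℕ) : ℤ) = (n : ℤ) - D b (b x) := by
        rw [← hsum]
        push_cast
        ring
      rw [Nat.cast_sum] at h5
      rw [h5]
      push_cast
      ring
    rw [rec_P h1 b x, add_mul, hI, hIII, hprod]
    have h7 : (n - Fintype.card W).factorial =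
        (n - Fintype.card W) * (n - Fintype.card W - 1).factorial := by
      obtain ⟨k, hk⟩ : ∃ k, n - Fintype.card W = k + 1 := ⟨n - Fintype.card W - 1, by omega⟩
      rw [hk, Nat.factorial_succ]
      simp
    rw [h7]
    zify
    rw [Nat.cast_sub hdx, Nat.cast_sub h2, Nat.cast_sub hlt.le]
    push_cast at hIV ⊢
    rw [hIV]
    ring

end TX

/-- the number of spanning trees on blocks -/
theorem p_T (h1 : S_ncle) : S_T := by
  intro X W _ _ b hX hW
  exact ⟨fun h => TX.P_zero b h, fun h => TX.main h1 _ X W b rfl hX hW h⟩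

end Pool.Agent.ALM
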